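import Pool.Agent.P.MP_a6f615_lc.Defs

-- part Pool.Agent.P.MP_a6f615_lc.Space
section

namespace Pool.Agent.P.MP_a6f615_lc

open MvPolynomial
open Classical

variable {V F : Type} [Field F]

/-- number of monomials of a polynomial -/
noncomputable def sz (q : MvPolynomial V F) : ℕ := q.support.card

noncomputable def cost (M : Finset (MvPolynomial V F)) : ℕ := ∑ q ∈ M, sz q

/-- insertion with a fixed decidability instance -/
noncomputable def ins (q : MvPolynomial V F) (M : Finset (MvPolynomial V F)) :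
    Finset (MvPolynomial V F) := insert q M

lemma mem_ins {q r : MvPolynomial V F} {M : Finset (MvPolynomial V F)} :
    r ∈ ins q M ↔ r = q ∨ r ∈ M := Finset.mem_insert

lemma ins_self (q : MvPolynomial V F) (M : Finset (MvPolynomial V F)) : q ∈ ins q M :=
  mem_ins.2 (Or.inl rfl)

lemma ins_mem {q r : MvPolynomial V F} {M : Finset (MvPolynomial V F)} (h : r ∈ M) :
    r ∈ ins q M := mem_ins.2 (Or.inr h)

lemma sz_mul (p q : MvPolynomial V F) : sz (p * q) ≤ sz p * sz q := by
  unfold sz
  exact (Finset.card_le_card (support_mul p q)).trans Finset.card_add_le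

lemma sz_add (p q : MvPolynomial V F) : sz (p + q) ≤ sz p + sz q := by
  unfold sz
  exact (Finset.card_le_card support_add).trans (Finset.card_union_le _ _)

lemma sz_monomial (m : V →₀ ℕ) (a : F) : sz (monomial m a : MvPolynomial V F) ≤ 1 := by
  unfold sz
  exact (Finset.card_le_card support_monomial_subset).trans (by simp)

lemma sz_X (x : V) : sz (X x : MvPolynomial V F) ≤ 1 := sz_monomial _ _

lemma sz_C (a : F) : sz (C a : MvPolynomial V F) ≤ 1 := sz_monomial _ _

lemma sz_one : sz (1 : MvPolynomial V F) ≤ 1 := sz_C 1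

lemma sz_zero : sz (0 : MvPolynomial V F) = 0 := by simp [sz]

lemma sz_neg (p : MvPolynomial V F) : sz (-p) = sz p := by simp [sz]

lemma sz_sub (p q : MvPolynomial V F) : sz (p - q) ≤ sz p + sz q := by
  rw [sub_eq_add_neg]; exact (sz_add _ _).trans (by rw [sz_neg])

lemma sz_one_sub {p : MvPolynomial V F} (h : sz p ≤ 1) : sz (1 - p) ≤ 2 :=
  (sz_sub _ _).trans (by have := sz_one (V := V) (F := F); omega)

lemma sz_mul_le {p q : MvPolynomial V F} {a b : ℕ} (hp : sz p ≤ a) (hq : sz q ≤ b) :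
    sz (p * q) ≤ a * b := (sz_mul p q).trans (Nat.mul_le_mul hp hq)

lemma sz_prod_X {ι : Type} (S : Finset ι) (f : ι → V) :
    sz (∏ i ∈ S, X (f i) : MvPolynomial V F) ≤ 1 := by
  induction S using Finset.induction_on with
  | empty => simpa using sz_one
  | insert a s ha ih =>
    rw [Finset.prod_insert ha]
    simpa using sz_mul_le (sz_X (F := F) (f a)) ih

lemma cost_mono {M M' : Finset (MvPolynomial V F)} (h : M ⊆ M') : cost M ≤ cost M' :=
  Finset.sum_le_sum_of_subset h

lemma cost_insert (q : MvPolynomial V F) (M : Finset (MvPolynomial V F)) :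
    cost (ins q M) ≤ cost M + sz q := by
  unfold ins
  by_cases h : q ∈ M
  · rw [Finset.insert_eq_of_mem h]; omega
  · unfold cost; rw [Finset.sum_insert h]; omega

lemma monSpace_le_cost (M : Finset (MvPolynomial V F)) : monSpace M ≤ cost M := by
  unfold monSpace cost sz
  have : (⋃ q ∈ M, (q.support : Set (V →₀ ℕ))) = ((M.biUnion fun q => q.support : Finset _) : Set _) := by
    ext m; simp
  rw [this, Set.ncard_coe_finset]
  exact Finset.card_biUnion_le

/-- reachability by syntactic steps inside total cost `s` -/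
def Reach (P : Set (MvPolynomial V F)) (s : ℕ) :
    Finset (MvPolynomial V F) → Finset (MvPolynomial V F) → Prop :=
  Relation.ReflTransGen fun A B => SynStep P A B ∧ cost B ≤ s

variable {P : Set (MvPolynomial V F)}

lemma Reach.trans' {s : ℕ} {A B D : Finset (MvPolynomial V F)} (h : Reach P s A B)
    (h' : Reach P s B D) : Reach P s A D := Relation.ReflTransGen.trans h h'

lemma Reach.refl' {s : ℕ} (A : Finset (MvPolynomial V F)) : Reach P s A A :=
  Relation.ReflTransGen.refl

lemma reach_erase {s : ℕ} {A B : Finset (MvPolynomial V F)} (h : B ⊆ A) (hc : cost B ≤ s) :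
    Reach P s A B := Relation.ReflTransGen.single ⟨Or.inl h, hc⟩

lemma reach_add {s : ℕ} {A : Finset (MvPolynomial V F)} {q : MvPolynomial V F}
    (h : q ∈ P ∨ (∃ x : V, q = X x ^ 2 - X x) ∨
      (∃ p₁ ∈ A, ∃ p₂ ∈ A, ∃ a b : F, q = C a * p₁ + C b * p₂) ∨
      (∃ p ∈ A, ∃ x : V, q = X x * p)) (hc : cost A + sz q ≤ s) :
    Reach P s A (ins q A) :=
  Relation.ReflTransGen.single ⟨Or.inr ⟨q, by simp [ins], h⟩, (cost_insert q A).trans hc⟩

/-- `q` can be added to the context `K` with overhead `e` -/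
def Der (P : Set (MvPolynomial V F)) (K : Finset (MvPolynomial V F)) (q : MvPolynomial V F)
    (e : ℕ) : Prop :=
  sz q ≤ e ∧ ∀ s, cost K + e ≤ s → Reach P s K (ins q K)

lemma Der.mono {K : Finset (MvPolynomial V F)} {q : MvPolynomial V F} {e e' : ℕ}
    (h : Der P K q e) (he : e ≤ e') : Der P K q e' :=
  ⟨h.1.trans he, fun s hs => h.2 s (by omega)⟩

lemma Der.cut {K : Finset (MvPolynomial V F)} {q₁ q₂ : MvPolynomial V F} {e₁ e₂ b e : ℕ}
    (h₁ : Der P K q₁ e₁) (hb : sz q₁ ≤ b) (h₂ : Der P (ins q₁ K) q₂ e₂)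
    (he₁ : e₁ ≤ e) (he₂ : b + e₂ ≤ e) : Der P K q₂ e := by
  refine ⟨h₂.1.trans (by omega), fun s hs => ?_⟩
  have c1 := cost_insert q₁ K
  have r1 := h₁.2 s (by omega)
  have r2 := h₂.2 s (by omega)
  refine (r1.trans' r2).trans' (reach_erase ?_ ?_)
  · intro x hx
    simp only [mem_ins] at hx ⊢
    tauto
  · have := cost_insert q₂ K
    have := h₂.1
    omega

lemma der_ax {K : Finset (MvPolynomial V F)} {q : MvPolynomial V F} {e : ℕ} (h : q ∈ P)
    (he : sz q ≤ e) : Der P K q e :=
  ⟨he, fun _ hs => reach_add (Or.inl h) (by omega)⟩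

lemma der_mem {K : Finset (MvPolynomial V F)} {q : MvPolynomial V F} {e : ℕ} (h : q ∈ K)
    (he : sz q ≤ e) : Der P K q e :=
  ⟨he, fun _ _ => by unfold ins; rw [Finset.insert_eq_of_mem h]; exact Reach.refl' _⟩

lemma der_lin {K : Finset (MvPolynomial V F)} {p₁ p₂ : MvPolynomial V F} (h₁ : p₁ ∈ K)
    (h₂ : p₂ ∈ K) (a b : F) {e : ℕ} (he : sz (C a * p₁ + C b * p₂) ≤ e) :
    Der P K (C a * p₁ + C b * p₂) e :=
  ⟨he, fun _ hs => reach_add (Or.inr (Or.inr (Or.inl ⟨p₁, h₁, p₂, h₂, a, b, rfl⟩))) (by omega)⟩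

lemma der_X {K : Finset (MvPolynomial V F)} {p : MvPolynomial V F} (h : p ∈ K) (x : V)
    {e : ℕ} (he : sz (X x * p) ≤ e) : Der P K (X x * p) e :=
  ⟨he, fun _ hs => reach_add (Or.inr (Or.inr (Or.inr ⟨p, h, x, rfl⟩))) (by omega)⟩

lemma der_monomial {K : Finset (MvPolynomial V F)} {q : MvPolynomial V F} (h : q ∈ K)
    (m : V →₀ ℕ) (a : F) : Der P K (monomial m a * q) (2 * sz q) := by
  have key : sz (monomial m a : MvPolynomial V F) ≤ 1 ∧ Der P K (monomial m a * q) (2 * sz q) := by
    refine induction_on_monomial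
      (motive := fun r => sz r ≤ 1 ∧ Der P K (r * q) (2 * sz q)) ?_ ?_ m a
    · intro a
      refine ⟨sz_C a, ?_⟩
      have h1 : sz (C a * q + C 0 * q) ≤ 2 * sz q := by
        have := sz_mul_le (sz_C (V := V) a) (le_refl (sz q))
        simp only [map_zero, zero_mul, add_zero]; omega
      simpa using der_lin (P := P) h h a 0 h1
    · rintro p n ⟨hp, ih⟩
      have hp' : sz (p * X n) ≤ 1 := by simpa using sz_mul_le hp (sz_X (F := F) n)
      refine ⟨hp', ?_⟩
      have e : p * X n * q = X n * (p * q) := by ring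
      have h1 : sz (p * q) ≤ sz q := by simpa using sz_mul_le hp (le_refl (sz q))
      have h2 : sz (X n * (p * q)) ≤ sz q := by
        rw [← e]; simpa using sz_mul_le hp' (le_refl (sz q))
      rw [e]
      exact ih.cut h1 (der_X (ins_self _ _) n h2) le_rfl (by omega)
  exact key.2

lemma der_mul {K : Finset (MvPolynomial V F)} {q : MvPolynomial V F} (h : q ∈ K)
    (r : MvPolynomial V F) : Der P K (r * q) ((2 * sz r + 2) * sz q) := by
  have key : ∀ S : Finset (V →₀ ℕ),
      sz (∑ m ∈ S, monomial m (coeff m r) : MvPolynomial V F) ≤ S.card ∧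
      Der P K ((∑ m ∈ S, monomial m (coeff m r)) * q) ((2 * S.card + 2) * sz q) := by
    intro S
    induction S using Finset.induction_on with
    | empty =>
      refine ⟨by simp [sz_zero], ?_⟩
      have h1 : sz (C 0 * q + C 0 * q) ≤ 2 * sz q := by simp [sz_zero]
      simpa using der_lin (P := P) h h 0 0 h1
    | insert a S ha ih =>
      obtain ⟨h1, ih⟩ := ih
      rw [Finset.sum_insert ha, Finset.card_insert_of_notMem ha]
      set u : MvPolynomial V F := ∑ m ∈ S, monomial m (coeff m r) with hu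
      set w : MvPolynomial V F := monomial a (coeff a r) with hw
      have hw1 : sz w ≤ 1 := sz_monomial _ _
      have h2 : sz (w + u) ≤ S.card + 1 := (sz_add _ _).trans (by omega)
      refine ⟨h2, ?_⟩
      have h3 : sz (u * q) ≤ S.card * sz q := sz_mul_le h1 le_rfl
      have h4 : sz (w * q) ≤ sz q := by simpa using sz_mul_le hw1 (le_refl (sz q))
      have e : (w + u) * q = C 1 * (w * q) + C 1 * (u * q) := by simp [add_mul]
      have h5 : sz (C 1 * (w * q) + C 1 * (u * q)) ≤ (S.card + 1) * sz q := by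
        rw [← e]; exact sz_mul_le h2 le_rfl
      have d2 : Der P (ins (u * q) K) (w * q) (2 * sz q) :=
        der_monomial (ins_mem h) _ _
      have d3 : Der P (ins (w * q) (ins (u * q) K)) (C 1 * (w * q) + C 1 * (u * q))
          ((S.card + 1) * sz q) :=
        der_lin (ins_self _ _)
          (ins_mem (ins_self _ _)) 1 1 h5
      have d4 : Der P (ins (u * q) K) (C 1 * (w * q) + C 1 * (u * q))
          ((S.card + 2) * sz q) := d2.cut h4 d3 (by nlinarith) (by nlinarith)
      rw [e]
      exact ih.cut h3 d4 (by nlinarith) (by nlinarith)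
  have := (key r.support).2
  rwa [← as_sum r] at this

/-- the workhorse: a combination `r₁ q₁ + r₂ q₂` of two polynomials in memory -/
lemma der_comb {K : Finset (MvPolynomial V F)} {q₁ q₂ r₁ r₂ q : MvPolynomial V F}
    {a₁ a₂ b₁ b₂ e : ℕ} (h₁ : q₁ ∈ K) (h₂ : q₂ ∈ K) (hq : q = r₁ * q₁ + r₂ * q₂)
    (ha₁ : sz r₁ ≤ a₁) (ha₂ : sz r₂ ≤ a₂) (hb₁ : sz q₁ ≤ b₁) (hb₂ : sz q₂ ≤ b₂)
    (he : (2 * a₁ + 2) * b₁ + (2 * a₂ + 2) * b₂ ≤ e) : Der P K q e := by
  have d1 : Der P K (r₁ * q₁) ((2 * a₁ + 2) * b₁) :=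
    (der_mul h₁ r₁).mono (Nat.mul_le_mul (by omega) hb₁)
  have d2 : Der P (ins (r₁ * q₁) K) (r₂ * q₂) ((2 * a₂ + 2) * b₂) :=
    (der_mul (ins_mem h₂) r₂).mono (Nat.mul_le_mul (by omega) hb₂)
  have s1 : sz (r₁ * q₁) ≤ a₁ * b₁ := sz_mul_le ha₁ hb₁
  have s2 : sz (r₂ * q₂) ≤ a₂ * b₂ := sz_mul_le ha₂ hb₂
  have e1 : q = C 1 * (r₁ * q₁) + C 1 * (r₂ * q₂) := by simp [hq]
  have s3 : sz (C 1 * (r₁ * q₁) + C 1 * (r₂ * q₂)) ≤ a₁ * b₁ + a₂ * b₂ := by
    rw [← e1, hq]; exact (sz_add _ _).trans (by omega)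
  have d3 : Der P (ins (r₂ * q₂) (ins (r₁ * q₁) K))
      (C 1 * (r₁ * q₁) + C 1 * (r₂ * q₂)) (a₁ * b₁ + a₂ * b₂) :=
    der_lin (ins_mem (ins_self _ _))
      (ins_self _ _) 1 1 s3
  have d4 : Der P (ins (r₁ * q₁) K) (C 1 * (r₁ * q₁) + C 1 * (r₂ * q₂))
      (a₁ * b₁ + (2 * a₂ + 2) * b₂) := d2.cut s2 d3 (by nlinarith) (by nlinarith)
  rw [e1]
  exact d1.cut s1 d4 (by nlinarith) (by nlinarith)

/-- iterating a derivation along an index -/
lemma der_iter {K : Finset (MvPolynomial V F)} (H : ℕ → MvPolynomial V F) (n : ℕ) {b e' e : ℕ}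
    (h0 : Der P K (H 0) e) (hb : ∀ j, sz (H j) ≤ b)
    (hs : ∀ j < n, Der P (ins (H j) K) (H (j + 1)) e') (he : b + e' ≤ e) :
    Der P K (H n) e := by
  induction n with
  | zero => exact h0
  | succ n ih =>
    exact (ih fun j hj => hs j (by omega)).cut (hb n) (hs n (by omega)) le_rfl he

/-- from reachability to an indexed sequence -/
lemma exists_seq {α : Type} {r : α → α → Prop} {a b : α} (h : Relation.ReflTransGen r a b) :
    ∃ (l : ℕ) (M : ℕ → α), M 0 = a ∧ M l = b ∧ ∀ i < l, r (M i) (M (i + 1)) := by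
  induction h with
  | refl => exact ⟨0, fun _ => a, rfl, rfl, fun i hi => absurd hi (by omega)⟩
  | @tail b c _ hbc ih =>
    obtain ⟨l, M, h0, hl, hs⟩ := ih
    refine ⟨l + 1, fun i => if i ≤ l then M i else c, by simp [h0], by simp, fun i hi => ?_⟩
    by_cases h : i < l
    · simpa [h.le, Nat.succ_le_of_lt h] using hs i h
    · have : i = l := by omega
      subst this
      simpa [hl] using hbc

lemma semStep_of_synStep {M M' : Finset (MvPolynomial V F)} (hP : P.Nonempty)
    (h : SynStep P M M') : SemStep P M M' := by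
  have inM : ∀ (p q : MvPolynomial V F), q ∈ Ideal.span (M : Set (MvPolynomial V F)) →
      q ∈ Ideal.span (M : Set (MvPolynomial V F)) +
      Ideal.span (Set.range fun x : V => (X x ^ 2 - X x : MvPolynomial V F)) + Ideal.span {p} :=
    fun p q hq => Ideal.mem_sup_left (Ideal.mem_sup_left hq)
  obtain ⟨p0, hp0⟩ := hP
  rcases h with h | ⟨q, hM, hq⟩
  · exact ⟨p0, hp0, fun q hq => inM _ _ (Ideal.subset_span (h hq))⟩
  · have hmem : ∀ r ∈ M', r = q ∨ r ∈ M := by
      intro r hr
      have : r ∈ (M' : Set (MvPolynomial V F)) := hr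
      rw [hM] at this
      simpa using this
    rcases hq with hq | ⟨x, rfl⟩ | ⟨p₁, h₁, p₂, h₂, a, b, rfl⟩ | ⟨p, hp, x, rfl⟩
    · refine ⟨q, hq, fun r hr => ?_⟩
      rcases hmem r hr with rfl | h
      · exact Ideal.mem_sup_right (Ideal.subset_span rfl)
      · exact inM _ _ (Ideal.subset_span h)
    · refine ⟨p0, hp0, fun r hr => ?_⟩
      rcases hmem r hr with rfl | h
      · exact Ideal.mem_sup_left (Ideal.mem_sup_right (Ideal.subset_span ⟨x, rfl⟩))
      · exact inM _ _ (Ideal.subset_span h)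
    · refine ⟨p0, hp0, fun r hr => ?_⟩
      rcases hmem r hr with rfl | h
      · exact inM _ _ (Ideal.add_mem _ (Ideal.mul_mem_left _ _ (Ideal.subset_span h₁))
          (Ideal.mul_mem_left _ _ (Ideal.subset_span h₂)))
      · exact inM _ _ (Ideal.subset_span h)
    · refine ⟨p0, hp0, fun r hr => ?_⟩
      rcases hmem r hr with rfl | h
      · exact inM _ _ (Ideal.mul_mem_left _ _ (Ideal.subset_span hp))
      · exact inM _ _ (Ideal.subset_span h)

/-- a configuration-style refutation yields a line-style refutation of some degree -/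
lemma hasPC_of_reach {s : ℕ} {M : Finset (MvPolynomial V F)} (h : Reach P s ∅ M)
    (h1 : (1 : MvPolynomial V F) ∈ M) : ∃ D, HasPCRefutation P D := by
  have key : ∃ (l : ℕ) (L : ℕ → MvPolynomial V F) (D : ℕ),
      (∀ i < l, (L i).totalDegree ≤ D ∧
        (L i ∈ P ∨ (∃ x : V, L i = X x ^ 2 - X x) ∨
        (∃ j < i, ∃ k < i, ∃ a b : F, L i = C a * L j + C b * L k) ∨
        (∃ j < i, ∃ x : V, L i = X x * L j))) ∧ ∀ q ∈ M, ∃ i < l, L i = q := by
    clear h1
    induction h with
    | refl => exact ⟨0, fun _ => 0, 0, fun i hi => absurd hi (by omega), by simp⟩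
    | @tail A B _ hAB ih =>
      obtain ⟨l, L, D, hL, hM⟩ := ih
      rcases hAB.1 with h | ⟨q, hB, hq⟩
      · exact ⟨l, L, D, hL, fun q hq => hM q (h hq)⟩
      · have hmem : ∀ r ∈ B, r = q ∨ r ∈ A := by
          intro r hr
          have : r ∈ (B : Set (MvPolynomial V F)) := hr
          rw [hB] at this
          simpa using this
        refine ⟨l + 1, fun i => if i < l then L i else q, max D q.totalDegree, ?_, ?_⟩
        · intro i hi
          by_cases hil : i < l
          · obtain ⟨hd, hj⟩ := hL i hil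
            simp only [hil, if_true]
            refine ⟨hd.trans (le_max_left _ _), ?_⟩
            rcases hj with hj | hj | ⟨j, hj, k, hk, a, b, e⟩ | ⟨j, hj, x, e⟩
            · exact Or.inl hj
            · exact Or.inr (Or.inl hj)
            · refine Or.inr (Or.inr (Or.inl ⟨j, hj, k, hk, a, b, ?_⟩))
              simp [hj.trans hil, hk.trans hil, e]
            · refine Or.inr (Or.inr (Or.inr ⟨j, hj, x, ?_⟩))
              simp [hj.trans hil, e]
          · have hi' : i = l := by omega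
            subst hi'
            simp only [lt_irrefl, if_false]
            refine ⟨le_max_right _ _, ?_⟩
            rcases hq with hq | hq | ⟨p₁, h₁, p₂, h₂, a, b, e⟩ | ⟨p, hp, x, e⟩
            · exact Or.inl hq
            · exact Or.inr (Or.inl hq)
            · obtain ⟨j, hj, ej⟩ := hM p₁ h₁
              obtain ⟨k, hk, ek⟩ := hM p₂ h₂
              refine Or.inr (Or.inr (Or.inl ⟨j, hj, k, hk, a, b, ?_⟩))
              simp [hj, hk, ej, ek, e]
            · obtain ⟨j, hj, ej⟩ := hM p hp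
              refine Or.inr (Or.inr (Or.inr ⟨j, hj, x, ?_⟩))
              simp [hj, ej, e]
        · intro r hr
          rcases hmem r hr with rfl | h
          · exact ⟨l, by omega, by simp⟩
          · obtain ⟨i, hi, e⟩ := hM r h
            exact ⟨i, by omega, by simp [hi, e]⟩
  obtain ⟨l, L, D, hL, hM⟩ := key
  obtain ⟨i, hi, e⟩ := hM 1 h1
  exact ⟨D, i, L, e, fun j hj => hL j (by omega)⟩

/-- soundness: a set with a refutation has no common zero in the Boolean cube -/
lemma unsat_of_hasPC {D : ℕ} (h : HasPCRefutation P D) (a : V → F)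
    (ha : ∀ x, a x = 0 ∨ a x = 1) : ∃ p ∈ P, eval a p ≠ 0 := by
  by_contra hc
  push Not at hc
  obtain ⟨l, L, h1, hL⟩ := h
  have key : ∀ i ≤ l, eval a (L i) = 0 := by
    intro i
    induction i using Nat.strong_induction_on with
    | _ i ih =>
      intro hi
      rcases (hL i hi).2 with hj | ⟨x, e⟩ | ⟨j, hj, k, hk, u, v, e⟩ | ⟨j, hj, x, e⟩
      · exact hc _ hj
      · rw [e]; rcases ha x with h | h <;> simp [h]
      · rw [e]; simp [ih j hj (by omega), ih k hk (by omega)]
      · rw [e]; simp [ih j hj (by omega)]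
  have := key l le_rfl
  rw [h1] at this
  simp at this

end Pool.Agent.P.MP_a6f615_lc
end

-- part Pool.Agent.P.MP_a6f615_lc.Formula
section

namespace Pool.Agent.P.MP_a6f615_lc

open MvPolynomial
open Classical

/-- a directed acyclic graph in which every non-source has exactly two predecessors -/
structure PG (W : Type) where
  src : W → Prop
  p1 : W → W
  p2 : W → W
  rk : W → ℕ
  h1 : ∀ v, ¬ src v → rk (p1 v) < rk v
  h2 : ∀ v, ¬ src v → rk (p2 v) < rk v
  hne : ∀ v, ¬ src v → p1 v ≠ p2 v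
  sink : W

abbrev Var (W : Type) (t : ℕ) : Type := (W × Fin t) ⊕ (W × Fin t × Fin t × Fin (t + 1))

variable {W : Type} {t : ℕ}

abbrev yv (v : W) (j : Fin t) : Var W t := Sum.inl (v, j)

def ev (v : W) (i i' : Fin t) (j : ℕ) : Var W t :=
  Sum.inr (v, i, i', ⟨min j t, Nat.lt_succ_of_le (min_le_right _ _)⟩)

noncomputable def startC (G : PG W) (v : W) (i i' : Fin t) : Finset (Var W t × Bool) :=
  if G.src v then {(ev v i i' 0, true)}
  else {(yv (G.p1 v) i, true), (yv (G.p2 v) i', true), (ev v i i' 0, true)}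

noncomputable def stepC (v : W) (i i' j : Fin t) : Finset (Var W t × Bool) :=
  {(ev v i i' j, false), (yv v j, false), (ev v i i' (j + 1), true)}

def IsClause (G : PG W) (c : Finset (Var W t × Bool)) : Prop :=
  (∃ v i i', c = startC G v i i') ∨ (∃ v i i' j, c = stepC v i i' j) ∨
    (∃ v i i', c = {(ev v i i' t, false)}) ∨ (∃ j, c = {(yv G.sink j, true)})

lemma card_clause (G : PG W) {c : Finset (Var W t × Bool)} (h : IsClause G c) : c.card ≤ 3 := by
  rcases h with ⟨v, i, i', rfl⟩ | ⟨v, i, i', j, rfl⟩ | ⟨v, i, i', rfl⟩ | ⟨j, rfl⟩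
  · unfold startC
    split_ifs
    · simp
    · exact Finset.card_le_three
  · exact Finset.card_le_three
  · simp
  · simp

variable {F : Type} [Field F]

noncomputable def prem (F : Type) [Field F] (G : PG W) (v : W) (i i' : Fin t) :
    MvPolynomial (Var W t) F :=
  if G.src v then 1 else (1 - X (yv (G.p1 v) i)) * (1 - X (yv (G.p2 v) i'))

lemma poly_start (G : PG W) (v : W) (i i' : Fin t) :
    clausePoly F (startC G v i i') = prem F G v i i' * (1 - X (ev v i i' 0)) := by
  unfold startC prem clausePoly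
  split_ifs with h
  · simp
  · have := G.hne v h
    rw [Finset.prod_insert, Finset.prod_insert]
    · simp [mul_assoc]
    · simp [ev]
    · simp [ev, this]

lemma poly_step (v : W) (i i' j : Fin t) :
    clausePoly F (stepC v i i' j) =
      X (ev v i i' j) * X (yv v j) * (1 - X (ev v i i' (j + 1))) := by
  unfold stepC clausePoly
  rw [Finset.prod_insert, Finset.prod_insert]
  · simp [mul_assoc]
  · simp [ev]
  · simp [ev]

/-- the set of clause polynomials -/
def PP (F : Type) [Field F] (G : PG W) (t : ℕ) : Set (MvPolynomial (Var W t) F) :=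
  clausePoly F '' {c | IsClause G c}

lemma mem_PP {G : PG W} {p : MvPolynomial (Var W t) F} : p ∈ PP F G t ↔
    (∃ v i i', p = prem F G v i i' * (1 - X (ev v i i' 0))) ∨
    (∃ v i i', ∃ j : Fin t, p = X (ev v i i' j) * X (yv v j) * (1 - X (ev v i i' (j + 1)))) ∨
    (∃ v i i', p = X (ev v i i' t)) ∨ (∃ j, p = 1 - X (yv G.sink j)) := by
  constructor
  · rintro ⟨c, hc, rfl⟩
    rcases hc with ⟨v, i, i', rfl⟩ | ⟨v, i, i', j, rfl⟩ | ⟨v, i, i', rfl⟩ | ⟨j, rfl⟩
    · exact Or.inl ⟨v, i, i', poly_start G v i i'⟩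
    · exact Or.inr (Or.inl ⟨v, i, i', j, poly_step v i i' j⟩)
    · exact Or.inr (Or.inr (Or.inl ⟨v, i, i', by simp [clausePoly]⟩))
    · exact Or.inr (Or.inr (Or.inr ⟨j, by simp [clausePoly]⟩))
  · rintro (⟨v, i, i', rfl⟩ | ⟨v, i, i', j, rfl⟩ | ⟨v, i, i', rfl⟩ | ⟨j, rfl⟩)
    · exact ⟨_, Or.inl ⟨v, i, i', rfl⟩, poly_start G v i i'⟩
    · exact ⟨_, Or.inr (Or.inl ⟨v, i, i', j, rfl⟩), poly_step v i i' j⟩
    · exact ⟨_, Or.inr (Or.inr (Or.inl ⟨v, i, i', rfl⟩)), by simp [clausePoly]⟩
    · exact ⟨_, Or.inr (Or.inr (Or.inr ⟨j, rfl⟩)), by simp [clausePoly]⟩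

lemma totalDegree_clausePoly {V : Type} (c : Finset (V × Bool)) :
    (clausePoly F c).totalDegree ≤ c.card := by
  unfold clausePoly
  refine (totalDegree_finsetProd _ _).trans ?_
  rw [Finset.card_eq_sum_ones]
  refine Finset.sum_le_sum fun l _ => ?_
  split_ifs
  · exact (totalDegree_sub _ _).trans (by simp [totalDegree_X])
  · simp [totalDegree_X]

/-- product of the first `j` variables of the block of `v` -/
noncomputable def Ypre (F : Type) [Field F] (t : ℕ) (v : W) (j : ℕ) : MvPolynomial (Var W t) F :=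
  ∏ l ∈ Finset.univ.filter (fun l : Fin t => l.val < j), X (yv v l)

lemma Ypre_zero (v : W) : Ypre F t v 0 = 1 := by simp [Ypre]

lemma Ypre_succ (v : W) (j : ℕ) (hj : j < t) :
    Ypre F t v (j + 1) = Ypre F t v j * X (yv v ⟨j, hj⟩) := by
  unfold Ypre
  have : Finset.univ.filter (fun l : Fin t => l.val < j + 1) =
      insert ⟨j, hj⟩ (Finset.univ.filter (fun l : Fin t => l.val < j)) := by
    ext l
    simp only [Finset.mem_filter, Finset.mem_univ, true_and, Finset.mem_insert, Fin.ext_iff]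
    omega
  rw [this, Finset.prod_insert (by simp), mul_comm]

lemma sz_Ypre (v : W) (j : ℕ) : sz (Ypre F t v j) ≤ 1 := sz_prod_X _ _

/-- the block monomial -/
noncomputable def TT (F : Type) [Field F] (t : ℕ) (v : W) : MvPolynomial (Var W t) F :=
  Ypre F t v t

lemma sz_TT (v : W) : sz (TT F t v) ≤ 1 := sz_Ypre _ _

lemma sz_prem (G : PG W) (v : W) (i i' : Fin t) : sz (prem F G v i i') ≤ 4 := by
  unfold prem
  split_ifs
  · exact sz_one.trans (by omega)
  · exact sz_mul_le (sz_one_sub (sz_X _)) (sz_one_sub (sz_X _))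

variable {G : PG W} {K : Finset (MvPolynomial (Var W t) F)}

lemma der_wide (K : Finset (MvPolynomial (Var W t) F)) (v : W) (i i' : Fin t) :
    Der (PP F G t) K (prem F G v i i' * TT F t v) 78 := by
  have hH : ∀ j, sz (prem F G v i i' * Ypre F t v j * (1 - X (ev v i i' j))) ≤ 8 := fun j =>
    sz_mul_le (sz_mul_le (sz_prem G v i i') (sz_Ypre v j)) (sz_one_sub (sz_X _))
  have d1 : Der (PP F G t) K (prem F G v i i' * Ypre F t v t * (1 - X (ev v i i' t))) 78 := by
    refine der_iter (fun j => prem F G v i i' * Ypre F t v j * (1 - X (ev v i i' j))) t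
      (b := 8) (e' := 70) ?_ hH ?_ le_rfl
    · refine der_ax (mem_PP.2 (Or.inl ⟨v, i, i', by simp [Ypre_zero]⟩)) ((hH 0).trans (by omega))
    · intro j hj
      have s1 : sz (X (ev v i i' j) * X (yv v ⟨j, hj⟩) * (1 - X (ev v i i' (j + 1))) :
          MvPolynomial (Var W t) F) ≤ 2 :=
        sz_mul_le (sz_mul_le (sz_X _) (sz_X _)) (sz_one_sub (sz_X _))
      refine (der_ax (mem_PP.2 (Or.inr (Or.inl ⟨v, i, i', ⟨j, hj⟩, rfl⟩))) s1).cut s1
        (der_comb (ins_mem (ins_self _ _))
          (ins_self _ _)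
          (r₁ := X (yv v ⟨j, hj⟩) * (1 - X (ev v i i' (j + 1))))
          (r₂ := prem F G v i i' * Ypre F t v j) ?_
          (sz_mul_le (sz_X _) (sz_one_sub (sz_X _)))
          (sz_mul_le (sz_prem G v i i') (sz_Ypre v j)) (hH j) s1 le_rfl) (by omega) (by omega)
      rw [Ypre_succ v j hj]; ring
  have s2 : sz (X (ev v i i' t) : MvPolynomial (Var W t) F) ≤ 1 := sz_X _
  refine d1.cut (hH t) ((der_ax (mem_PP.2 (Or.inr (Or.inr (Or.inl ⟨v, i, i', rfl⟩)))) s2).cut s2
    (der_comb (ins_mem (ins_self _ _))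
      (ins_self _ _) (r₁ := 1) (r₂ := prem F G v i i' * TT F t v) ?_
      sz_one (sz_mul_le (sz_prem G v i i') (sz_TT v)) (hH t) s2 le_rfl) (e := 70)
      (by omega) (by omega)) le_rfl (by omega)
  unfold TT; ring

lemma der_zero (K : Finset (MvPolynomial (Var W t) F)) (i : Fin t) :
    Der (PP F G t) K 0 1 := by
  have s2 : sz (X (ev G.sink i i t) : MvPolynomial (Var W t) F) ≤ 1 := sz_X _
  have d := der_lin (P := PP F G t)
    (ins_self (X (ev G.sink i i t) : MvPolynomial (Var W t) F) K)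
    (ins_self _ _) 0 0 (e := 0) (by simp [sz_zero])
  simp only [map_zero, zero_mul, add_zero] at d
  exact (der_ax (mem_PP.2 (Or.inr (Or.inr (Or.inl ⟨_, i, i, rfl⟩)))) s2).cut s2 d le_rfl le_rfl

lemma der_src (K : Finset (MvPolynomial (Var W t) F)) (ht : 0 < t) {v : W} (hv : G.src v) :
    Der (PP F G t) K (TT F t v) 86 := by
  have := der_wide (G := G) K v ⟨0, ht⟩ ⟨0, ht⟩
  simp only [prem, hv, if_true, one_mul] at this
  exact this.mono (by omega)

lemma der_row (K : Finset (MvPolynomial (Var W t) F)) {v : W} (hv : ¬ G.src v) (i : Fin t) :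
    Der (PP F G t) K ((1 - X (yv (G.p1 v) i)) * (1 - TT F t (G.p2 v)) * TT F t v) 82 := by
  have hH : ∀ j, sz ((1 - X (yv (G.p1 v) i)) * (1 - Ypre F t (G.p2 v) j) * TT F t v) ≤ 4 :=
    fun j => sz_mul_le (sz_mul_le (sz_one_sub (sz_X _)) (sz_one_sub (sz_Ypre _ _))) (sz_TT v)
  refine der_iter
    (fun j => (1 - X (yv (G.p1 v) i)) * (1 - Ypre F t (G.p2 v) j) * TT F t v) t
    (b := 4) (e' := 78) ?_ hH ?_ le_rfl
  · simpa [Ypre_zero] using (der_zero (G := G) K i).mono (show 1 ≤ 82 by omega)
  · intro j hj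
    have s1 : sz (prem F G v i ⟨j, hj⟩ * TT F t v) ≤ 4 :=
      sz_mul_le (sz_prem G v _ _) (sz_TT v)
    refine (der_wide _ v i ⟨j, hj⟩).cut s1
      (der_comb (ins_mem (ins_self _ _))
        (ins_self _ _) (r₁ := X (yv (G.p2 v) ⟨j, hj⟩)) (r₂ := 1) ?_
        (sz_X _) sz_one (hH j) s1 le_rfl) le_rfl (by omega)
    rw [Ypre_succ _ j hj]
    simp only [prem, hv, if_false]
    ring

lemma der_imp3 (K : Finset (MvPolynomial (Var W t) F)) (ht : 0 < t) {v : W} (hv : ¬ G.src v) :
    Der (PP F G t) K ((1 - TT F t (G.p1 v)) * (1 - TT F t (G.p2 v)) * TT F t v) 86 := by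
  have hH : ∀ j, sz ((1 - Ypre F t (G.p1 v) j) * (1 - TT F t (G.p2 v)) * TT F t v) ≤ 4 :=
    fun j => sz_mul_le (sz_mul_le (sz_one_sub (sz_Ypre _ _)) (sz_one_sub (sz_TT _))) (sz_TT v)
  refine der_iter
    (fun j => (1 - Ypre F t (G.p1 v) j) * (1 - TT F t (G.p2 v)) * TT F t v) t
    (b := 4) (e' := 82) ?_ hH ?_ le_rfl
  · simpa [Ypre_zero] using (der_zero (G := G) K ⟨0, ht⟩).mono (show 1 ≤ 86 by omega)
  · intro j hj
    have s1 : sz ((1 - X (yv (G.p1 v) ⟨j, hj⟩)) * (1 - TT F t (G.p2 v)) * TT F t v) ≤ 4 :=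
      sz_mul_le (sz_mul_le (sz_one_sub (sz_X _)) (sz_one_sub (sz_TT _))) (sz_TT v)
    refine (der_row _ hv ⟨j, hj⟩).cut s1
      (der_comb (ins_mem (ins_self _ _))
        (ins_self _ _) (r₁ := X (yv (G.p1 v) ⟨j, hj⟩)) (r₂ := 1) ?_
        (sz_X _) sz_one (hH j) s1 le_rfl) le_rfl (by omega)
    rw [Ypre_succ _ j hj]
    ring

/-- the implication polynomial: `w` pebbled implies `b` pebbled -/
noncomputable def Imp (F : Type) [Field F] (t : ℕ) (w b : W) : MvPolynomial (Var W t) F :=
  (1 - TT F t w) * TT F t b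

lemma sz_Imp (w b : W) : sz (Imp F t w b) ≤ 2 := sz_mul_le (sz_one_sub (sz_TT _)) (sz_TT _)

lemma der_half (ht : 0 < t) {v : W} (hv : ¬ G.src v) (h2 : TT F t (G.p2 v) ∈ K) :
    Der (PP F G t) K (Imp F t (G.p1 v) v) 86 := by
  have s1 : sz ((1 - TT F t (G.p1 v)) * (1 - TT F t (G.p2 v)) * TT F t v) ≤ 4 :=
    sz_mul_le (sz_mul_le (sz_one_sub (sz_TT _)) (sz_one_sub (sz_TT _))) (sz_TT v)
  refine (der_imp3 K ht hv).cut s1
    (der_comb (ins_self _ _) (ins_mem h2)
      (r₁ := 1) (r₂ := Imp F t (G.p1 v) v) ?_ sz_one (sz_Imp _ _) s1 (sz_TT _) le_rfl)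
    le_rfl (by omega)
  unfold Imp; ring

lemma der_mp {w b : W} (h1 : Imp F t w b ∈ K) (h2 : TT F t w ∈ K) :
    Der (PP F G t) K (TT F t b) 12 := by
  refine der_comb h1 h2 (r₁ := 1) (r₂ := TT F t b) ?_ sz_one (sz_TT _) (sz_Imp _ _) (sz_TT _)
    le_rfl
  unfold Imp; ring

lemma der_place (ht : 0 < t) {v : W} (hv : ¬ G.src v) (h1 : TT F t (G.p1 v) ∈ K)
    (h2 : TT F t (G.p2 v) ∈ K) : Der (PP F G t) K (TT F t v) 86 :=
  (der_half ht hv h2).cut (sz_Imp _ _)
    (der_mp (ins_self _ _) (ins_mem h1)) le_rfl (by omega)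

lemma der_extend (ht : 0 < t) {v w : W} (hv : ¬ G.src v) (h1 : Imp F t w (G.p1 v) ∈ K)
    (h2 : TT F t (G.p2 v) ∈ K) : Der (PP F G t) K (Imp F t w v) 86 := by
  refine (der_half ht hv h2).cut (sz_Imp _ _)
    (der_comb (ins_self _ _) (ins_mem h1)
      (r₁ := 1 - TT F t w) (r₂ := TT F t v) ?_ (sz_one_sub (sz_TT _)) (sz_TT _) (sz_Imp _ _)
      (sz_Imp _ _) le_rfl) le_rfl (by omega)
  unfold Imp; ring

lemma der_final (h : TT F t G.sink ∈ K) : Der (PP F G t) K 1 15 := by
  have := der_iter (P := PP F G t) (K := K) (fun j => Ypre F t G.sink (t - j)) t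
    (b := 1) (e' := 14) (e := 15) (der_mem h ((sz_TT _).trans (by omega)))
    (fun j => sz_Ypre _ _) ?_ le_rfl
  · simpa [Ypre_zero] using this
  · intro j hj
    have hj' : t - (j + 1) < t := by omega
    have s1 : sz (1 - X (yv G.sink ⟨_, hj'⟩) : MvPolynomial (Var W t) F) ≤ 2 :=
      sz_one_sub (sz_X _)
    refine (der_ax (mem_PP.2 (Or.inr (Or.inr (Or.inr ⟨⟨_, hj'⟩, rfl⟩)))) s1).cut s1
      (der_comb (ins_mem (ins_self _ _))
        (ins_self _ _) (r₁ := 1) (r₂ := Ypre F t G.sink (t - (j + 1))) ?_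
        sz_one (sz_Ypre _ _) (sz_Ypre _ _) s1 le_rfl) (by omega) (by omega)
    have e : t - j = t - (j + 1) + 1 := by omega
    rw [e, Ypre_succ _ _ hj']
    ring

end Pool.Agent.P.MP_a6f615_lc
end

-- part Pool.Agent.P.MP_a6f615_lc.Pebble
section

namespace Pool.Agent.P.MP_a6f615_lc

open Classical

section general

variable {W : Type} (G : PG W)

def PStep (A B : Finset W) : Prop :=
  ∀ v ∈ B, v ∈ A ∨ G.src v ∨ (G.p1 v ∈ A ∧ G.p2 v ∈ A)

/-- black pebbling configurations reachable with at most `K` pebbles -/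
def Peb (K : ℕ) (A : Finset W) : Prop :=
  Relation.ReflTransGen (fun A B => PStep G A B ∧ B.card ≤ K) ∅ A

variable {G}

lemma Peb.card_le {K : ℕ} {A : Finset W} (h : Peb G K A) : A.card ≤ K := by
  induction h with
  | refl => simp
  | tail _ h _ => exact h.2

lemma peb_empty (K : ℕ) : Peb G K ∅ := Relation.ReflTransGen.refl

lemma Peb.subset {K : ℕ} {A B : Finset W} (h : Peb G K A) (hB : B ⊆ A) : Peb G K B :=
  Relation.ReflTransGen.tail h
    ⟨fun _ hv => Or.inl (hB hv), (Finset.card_le_card hB).trans h.card_le⟩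

lemma Peb.closure {K : ℕ} {A B : Finset W} (h : Peb G K A)
    (hB : ∀ w ∈ B, w ∈ A ∨ G.src w ∨ (G.p1 w ∈ B ∧ G.p2 w ∈ B)) (hK : B.card ≤ K) :
    Peb G K B := by
  have key : ∀ r : ℕ, Peb G K (B.filter fun w => w ∈ A ∨ G.rk w < r) := by
    intro r
    induction r with
    | zero =>
      refine h.subset fun w hw => ?_
      simpa using (Finset.mem_filter.1 hw).2
    | succ r ih =>
      refine Relation.ReflTransGen.tail ih
        ⟨fun w hw => ?_, (Finset.card_le_card (Finset.filter_subset _ _)).trans hK⟩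
      obtain ⟨hwB, hw⟩ := Finset.mem_filter.1 hw
      by_cases hA : w ∈ A
      · exact Or.inl (Finset.mem_filter.2 ⟨hwB, Or.inl hA⟩)
      by_cases hs : G.src w
      · exact Or.inr (Or.inl hs)
      have hr : G.rk w < r + 1 := hw.resolve_left hA
      obtain ⟨h1, h2⟩ := ((hB w hwB).resolve_left hA).resolve_left hs
      have := G.h1 w hs
      have := G.h2 w hs
      exact Or.inr (Or.inr ⟨Finset.mem_filter.2 ⟨h1, Or.inr (by omega)⟩,
        Finset.mem_filter.2 ⟨h2, Or.inr (by omega)⟩⟩)
  have := key (B.sup G.rk + 1)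
  rwa [Finset.filter_true_of_mem] at this
  intro w hw
  exact Or.inr (Nat.lt_succ_of_le (Finset.le_sup hw))

variable (G)

/-- unpebbled dependency paths at a configuration -/
def Dep (A : Finset W) : W → W → Prop :=
  Relation.ReflTransGen fun a b => b ∉ A ∧ ¬ G.src b ∧ (a = G.p1 b ∨ a = G.p2 b)

variable {G}

lemma first_time {M : ℕ → Finset W} {b : W} {θ τ : ℕ} (h1 : b ∉ M θ) (h2 : b ∈ M τ)
    (hle : θ ≤ τ) : ∃ σ, θ ≤ σ ∧ σ < τ ∧ b ∈ M (σ + 1) ∧ ∀ ρ, θ ≤ ρ → ρ ≤ σ → b ∉ M ρ := by
  have hex : ∃ σ, θ ≤ σ ∧ b ∈ M σ := ⟨τ, hle, h2⟩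
  have hs := Nat.find_spec hex
  have hne : Nat.find hex ≠ θ := fun e => h1 (e ▸ hs.2)
  have hτ : Nat.find hex ≤ τ := Nat.find_min' hex ⟨hle, h2⟩
  refine ⟨Nat.find hex - 1, by omega, by omega, ?_, fun ρ hρ hρ' hb => ?_⟩
  · have : Nat.find hex - 1 + 1 = Nat.find hex := by omega
    rw [this]; exact hs.2
  · have := Nat.find_min' hex ⟨hρ, hb⟩
    omega

lemma dep_time {M : ℕ → Finset W} {T : ℕ} (hM : ∀ i < T, PStep G (M i) (M (i + 1)))
    {θ : ℕ} {x y : W} (h : Dep G (M θ) x y) :
    ∀ τ, θ ≤ τ → τ ≤ T → y ∈ M τ → ∃ τ', θ ≤ τ' ∧ τ' ≤ τ ∧ x ∈ M τ' := by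
  induction h with
  | refl => exact fun τ h1 _ h3 => ⟨τ, h1, le_rfl, h3⟩
  | @tail a b _ hab ih =>
    intro τ h1 h2 h3
    obtain ⟨σ, s1, s2, s3, s4⟩ := first_time hab.1 h3 h1
    have := ((hM σ (by omega) b s3).resolve_left (s4 σ s1 le_rfl)).resolve_left hab.2.1
    have ha : a ∈ M σ := by
      rcases hab.2.2 with e | e
      · rw [e]; exact this.1
      · rw [e]; exact this.2
    obtain ⟨τ', t1, t2, t3⟩ := ih σ s1 (by omega) ha
    exact ⟨τ', t1, by omega, t3⟩

end general

/-! The interval graph -/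

abbrev Vx (N p : ℕ) : Type := Fin (N + 1) × Bool × Fin (p + 1)

variable {N p : ℕ}

def mkI (N n : ℕ) : Fin (N + 1) := ⟨min n N, Nat.lt_succ_of_le (min_le_right _ _)⟩

def mkJ (p j : ℕ) : Fin (p + 1) := ⟨min j p, Nat.lt_succ_of_le (min_le_right _ _)⟩

def Cv (N p n j : ℕ) : Vx N p := (mkI N n, false, mkJ p j)

def Ov (N p n j : ℕ) : Vx N p := (mkI N n, true, mkJ p j)

def FG (N p : ℕ) (lo : ℕ → ℕ) (hlo : ∀ n, 0 < n → lo n < n) : PG (Vx N p) where
  src v := v.1.val = 0
  p1 v := if v.2.1 = true then Ov N p (v.1.val - 1) v.2.2.val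
    else if v.2.2.val = 0 then Cv N p (v.1.val - 1) p else Cv N p v.1.val (v.2.2.val - 1)
  p2 v := if v.2.1 = true then Cv N p v.1.val p else Ov N p (lo v.1.val) v.2.2.val
  rk v := v.1.val * (p + 2) + (if v.2.1 = true then p + 1 else v.2.2.val)
  h1 := by
    rintro ⟨⟨n, hn⟩, b, ⟨j, hj⟩⟩ hv
    simp only at hv
    obtain ⟨m, rfl⟩ : ∃ m, n = m + 1 := ⟨n - 1, by omega⟩
    have e1 : min m N = m := by omega
    have e2 : min (m + 1) N = m + 1 := by omega
    cases b
    · by_cases h : j = 0
      · simp [h, Cv, mkI, mkJ, e1]; nlinarith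
      · simp [h, Cv, mkI, mkJ, e2]; omega
    · simp [Ov, mkI, mkJ, e1]
  h2 := by
    rintro ⟨⟨n, hn⟩, b, ⟨j, hj⟩⟩ hv
    simp only at hv
    have h := hlo n (by omega)
    have e1 : min (lo n) N = lo n := by omega
    have e2 : min n N = n := by omega
    cases b
    · simp [Ov, mkI, mkJ, e1]
      have : (lo n + 1) * (p + 2) ≤ n * (p + 2) := Nat.mul_le_mul_right _ h
      nlinarith
    · simp [Cv, mkI, mkJ, e2]
  hne := by
    rintro ⟨⟨n, hn⟩, b, ⟨j, hj⟩⟩ _
    cases b
    · by_cases h : j = 0 <;> simp [h, Cv, Ov]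
    · simp [Cv, Ov]
  sink := Cv N p (N - 1) p

variable {lo : ℕ → ℕ} {hlo : ∀ n, 0 < n → lo n < n}

lemma idx_Cv {n : ℕ} (hn : n ≤ N) (j : ℕ) : (Cv N p n j).1.val = n := by
  simp [Cv, mkI, hn]

lemma idx_Ov {n : ℕ} (hn : n ≤ N) (j : ℕ) : (Ov N p n j).1.val = n := by
  simp [Ov, mkI, hn]

lemma nsrc_Cv {n : ℕ} (hn : n + 1 ≤ N) (j : ℕ) : ¬ (FG N p lo hlo).src (Cv N p (n + 1) j) := by
  change ¬ (Cv N p (n + 1) j).1.val = 0
  rw [idx_Cv hn]; omega

lemma nsrc_Ov {n : ℕ} (hn : n + 1 ≤ N) (j : ℕ) : ¬ (FG N p lo hlo).src (Ov N p (n + 1) j) := by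
  change ¬ (Ov N p (n + 1) j).1.val = 0
  rw [idx_Ov hn]; omega

lemma src_Cv (j : ℕ) : (FG N p lo hlo).src (Cv N p 0 j) := by
  exact idx_Cv (Nat.zero_le N) j

lemma src_Ov (j : ℕ) : (FG N p lo hlo).src (Ov N p 0 j) := by
  exact idx_Ov (Nat.zero_le N) j

lemma p1_C0 {n : ℕ} (hn : n + 1 ≤ N) : (FG N p lo hlo).p1 (Cv N p (n + 1) 0) = Cv N p n p := by
  simp [FG, Cv, mkI, mkJ, hn]; omega

lemma p1_Cs {n j : ℕ} (hn : n ≤ N) (hj : j + 1 ≤ p) :
    (FG N p lo hlo).p1 (Cv N p n (j + 1)) = Cv N p n j := by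
  simp [FG, Cv, mkI, mkJ, hn, hj]; omega

lemma p2_C {n j : ℕ} (hn : n ≤ N) (hj : j ≤ p) :
    (FG N p lo hlo).p2 (Cv N p n j) = Ov N p (lo n) j := by
  simp [FG, Cv, Ov, mkI, mkJ, hn, hj]

lemma p1_O {n j : ℕ} (hn : n + 1 ≤ N) (hj : j ≤ p) :
    (FG N p lo hlo).p1 (Ov N p (n + 1) j) = Ov N p n j := by
  simp [FG, Ov, mkI, mkJ, hn, hj]; omega

lemma p2_O {n : ℕ} (hn : n ≤ N) (j : ℕ) :
    (FG N p lo hlo).p2 (Ov N p n j) = Cv N p n p := by
  simp [FG, Cv, Ov, mkI, mkJ, hn]

lemma dep_chain {A : Finset (Vx N p)} {n : ℕ} (hn : n + 1 ≤ N)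
    (hA : ∀ l, Cv N p (n + 1) l ∉ A) {j j' : ℕ} (hj : j ≤ j') (hj' : j' ≤ p) :
    Dep (FG N p lo hlo) A (Cv N p (n + 1) j) (Cv N p (n + 1) j') := by
  induction j', hj using Nat.le_induction with
  | base => exact Relation.ReflTransGen.refl
  | succ j' _ ih =>
    exact Relation.ReflTransGen.tail (ih (by omega))
      ⟨hA _, nsrc_Cv hn _, Or.inl (p1_Cs hn hj').symm⟩

lemma dep_bb {A : Finset (Vx N p)} {n n' : ℕ} (hn : n ≤ n') (hn' : n' ≤ N)
    (hA : ∀ m, n < m → m ≤ n' → ∀ l, Cv N p m l ∉ A) :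
    Dep (FG N p lo hlo) A (Cv N p n p) (Cv N p n' p) := by
  induction n', hn using Nat.le_induction with
  | base => exact Relation.ReflTransGen.refl
  | succ n' h ih =>
    refine Relation.ReflTransGen.trans (Relation.ReflTransGen.tail
      (ih (by omega) fun m h1 h2 => hA m h1 (by omega))
      ⟨hA (n' + 1) (by omega) le_rfl 0, nsrc_Cv hn' _, Or.inl (p1_C0 hn').symm⟩) ?_
    exact dep_chain hn' (hA (n' + 1) (by omega) le_rfl) (Nat.zero_le _) le_rfl

lemma dep_col {A : Finset (Vx N p)} {n n' j : ℕ} (hj : j ≤ p) (hn : n ≤ n') (hn' : n' ≤ N)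
    (hA : ∀ m, n < m → m ≤ n' → Ov N p m j ∉ A) :
    Dep (FG N p lo hlo) A (Ov N p n j) (Ov N p n' j) := by
  induction n', hn using Nat.le_induction with
  | base => exact Relation.ReflTransGen.refl
  | succ n' h ih =>
    exact Relation.ReflTransGen.tail (ih (by omega) fun m h1 h2 => hA m h1 (by omega))
      ⟨hA (n' + 1) (by omega) le_rfl, nsrc_Ov hn' _, Or.inl (p1_O hn' hj).symm⟩

/-- number of pebbles with index in `[a, b)` -/
noncomputable def cnt (A : Finset (Vx N p)) (a b : ℕ) : ℕ :=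
  (A.filter fun v => a ≤ v.1.val ∧ v.1.val < b).card

lemma cnt_le_card (A : Finset (Vx N p)) (a b : ℕ) : cnt A a b ≤ A.card :=
  Finset.card_le_card (Finset.filter_subset _ _)

lemma cnt_add (A : Finset (Vx N p)) {a b c : ℕ} (h1 : a ≤ b) (h2 : b ≤ c) :
    cnt A a c = cnt A a b + cnt A b c := by
  unfold cnt
  rw [← Finset.card_union_of_disjoint]
  · congr 1
    ext v
    simp only [Finset.mem_filter, Finset.mem_union]
    constructor
    · rintro ⟨h, h3, h4⟩
      by_cases h5 : v.1.val < b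
      · exact Or.inl ⟨h, h3, h5⟩
      · exact Or.inr ⟨h, by omega, h4⟩
    · rintro (⟨h, h3, h4⟩ | ⟨h, h3, h4⟩)
      · exact ⟨h, h3, by omega⟩
      · exact ⟨h, by omega, h4⟩
  · rw [Finset.disjoint_filter]
    intro v _ h3 h4
    omega

lemma cnt_mono (A : Finset (Vx N p)) {a b a' b' : ℕ} (h1 : a' ≤ a) (h2 : b ≤ b') :
    cnt A a b ≤ cnt A a' b' := by
  refine Finset.card_le_card fun v hv => ?_
  simp only [Finset.mem_filter] at hv ⊢
  exact ⟨hv.1, by omega, by omega⟩

lemma cnt_pos {A : Finset (Vx N p)} {a b : ℕ} {v : Vx N p} (hv : v ∈ A) (h1 : a ≤ v.1.val)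
    (h2 : v.1.val < b) : 1 ≤ cnt A a b :=
  Finset.card_pos.2 ⟨v, Finset.mem_filter.2 ⟨hv, h1, h2⟩⟩

lemma Cv_notMem {A : Finset (Vx N p)} {a b n : ℕ} (h : cnt A a b = 0) (hn : n ≤ N) (h1 : a ≤ n)
    (h2 : n < b) (l : ℕ) : Cv N p n l ∉ A := fun hv => by
  have := cnt_pos (a := a) (b := b) hv (by rw [idx_Cv hn]; exact h1) (by rw [idx_Cv hn]; exact h2)
  omega

lemma free_column {A : Finset (Vx N p)} {a b : ℕ} (h : cnt A a b ≤ p) :
    ∃ j ≤ p, ∀ m, m ≤ N → a ≤ m → m < b → Ov N p m j ∉ A := by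
  by_contra hc
  push Not at hc
  have : (Finset.univ : Finset (Fin (p + 1))) ⊆
      (A.filter fun v => a ≤ v.1.val ∧ v.1.val < b).image fun v => v.2.2 := by
    intro j _
    obtain ⟨m, h1, h2, h3, h4⟩ := hc j.val (Nat.le_of_lt_succ j.2)
    refine Finset.mem_image.2 ⟨Ov N p m j.val, Finset.mem_filter.2 ⟨h4, ?_⟩, ?_⟩
    · rw [idx_Ov h1]; exact ⟨h2, h3⟩
    · apply Fin.ext
      have := j.2
      simp only [Ov, mkJ]
      omega
  have h2 := (Finset.card_le_card this).trans Finset.card_image_le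
  simp only [Finset.card_univ, Fintype.card_fin] at h2
  unfold cnt at h
  omega

lemma free_block (A : Finset (Vx N p)) (a h c : ℕ) : ∀ r : ℕ,
    cnt A (a + c * h + 1) (a + (c + r) * h + 1) < r →
    ∃ i, c ≤ i ∧ i < c + r ∧ cnt A (a + i * h + 1) (a + (i + 1) * h + 1) = 0 := by
  intro r
  induction r with
  | zero => intro h; omega
  | succ r ih =>
    intro hr
    by_cases h0 : cnt A (a + (c + r) * h + 1) (a + (c + r + 1) * h + 1) = 0
    · exact ⟨c + r, by omega, by omega, h0⟩
    · have e := cnt_add A (a := a + c * h + 1) (b := a + (c + r) * h + 1)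
        (c := a + (c + r + 1) * h + 1) (by nlinarith) (by nlinarith)
      have e2 : c + (r + 1) = c + r + 1 := by ring
      rw [e2] at hr
      obtain ⟨i, h1, h2, h3⟩ := ih (by omega)
      exact ⟨i, h1, by omega, h3⟩

lemma Cv_min (n l : ℕ) : Cv N p n l = Cv N p n (min l p) := by
  simp [Cv, mkJ]

/-- refining a traversal window of one block -/
lemma refine_window {M : ℕ → Finset (Vx N p)} {T : ℕ}
    (hM : ∀ i < T, PStep (FG N p lo hlo) (M i) (M (i + 1))) {c m s t : ℕ} (hm : m + 1 ≤ N)
    (hc : c ≤ m + 1) (hst : s ≤ t) (hT : t ≤ T) (h0 : cnt (M s) c (m + 2) = 0)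
    (hb : Cv N p (m + 1) p ∈ M t) :
    ∃ s' u', s ≤ s' ∧ s' ≤ u' ∧ u' ≤ t ∧ cnt (M s') c (m + 2) = 0 ∧
      (∀ θ, s' < θ → θ ≤ t → 1 ≤ cnt (M θ) c (m + 2)) ∧ Cv N p m p ∈ M u' ∧
      ∀ θ, s' ≤ θ → θ ≤ u' → ∀ l, Cv N p (m + 1) l ∉ M θ := by
  set s' := Nat.findGreatest (fun τ => cnt (M τ) c (m + 2) = 0) t with hs'
  have a1 : s ≤ s' := Nat.le_findGreatest hst h0
  have a2 : s' ≤ t := Nat.findGreatest_le t
  have a3 : cnt (M s') c (m + 2) = 0 :=
    Nat.findGreatest_spec (P := fun τ => cnt (M τ) c (m + 2) = 0) hst h0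
  have a4 : ∀ θ, s' < θ → θ ≤ t → 1 ≤ cnt (M θ) c (m + 2) := fun θ h1 h2 =>
    Nat.one_le_iff_ne_zero.2 (Nat.findGreatest_is_greatest (P := fun τ => cnt (M τ) c (m + 2) = 0) h1 h2)
  have a5 : ∀ l, Cv N p (m + 1) l ∉ M s' := Cv_notMem a3 hm hc (by omega)
  obtain ⟨τ, t1, t2, t3⟩ := dep_time hM (dep_chain (lo := lo) (hlo := hlo) hm a5
    (Nat.zero_le p) le_rfl) t a2 hT hb
  obtain ⟨σ, s1, s2, s3, s4⟩ := first_time (a5 0) t3 t1
  have a6 := ((hM σ (by omega) _ s3).resolve_left (s4 σ s1 le_rfl)).resolve_left (nsrc_Cv hm 0)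
  rw [p1_C0 hm] at a6
  refine ⟨s', σ, a1, s1, by omega, a3, a4, a6.1, fun θ h1 h2 l hl => ?_⟩
  rw [Cv_min] at hl
  obtain ⟨τ', u1, u2, u3⟩ := dep_time hM (dep_chain (lo := lo) (hlo := hlo) hm a5
    (Nat.zero_le _) (min_le_right l p)) θ h1 (by omega) hl
  exact s4 τ' u1 (by omega) u3

lemma LB (k L : ℕ) (hk : (p + 1) * (p + 1) + 2 ≤ k)
    (hl : ∀ μ < L, ∀ a i, k ^ (μ + 1) ∣ a → i + 1 < k → lo (a + (i + 1) * k ^ μ) = a + i * k ^ μ)
    {M : ℕ → Finset (Vx N p)} {T : ℕ}
    (hM : ∀ i < T, PStep (FG N p lo hlo) (M i) (M (i + 1))) :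
    ∀ μ, μ + 1 ≤ L → ∀ a s u, k ^ (μ + 1) ∣ a → a + k ^ (μ + 1) ≤ N + 1 → s ≤ u → u ≤ T →
      cnt (M s) (a + 1) (a + k ^ (μ + 1)) = 0 → Cv N p (a + k ^ (μ + 1) - 1) p ∈ M u →
      ∃ θ, s ≤ θ ∧ θ ≤ u ∧ μ * (p + 1) + 1 ≤ cnt (M θ) (a + 1) (a + k ^ (μ + 1)) := by
  have hk2 : 2 ≤ k := by omega
  intro μ
  induction μ with
  | zero =>
    intro _ a s u _ hN hsu _ _ hb
    simp only [zero_add, pow_one] at hN hb ⊢
    refine ⟨u, hsu, le_rfl, ?_⟩
    have e := idx_Cv (N := N) (p := p) (n := a + k - 1) (by omega) p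
    simpa using cnt_pos (a := a + 1) (b := a + k) hb (by omega) (by omega)
  | succ μ ih =>
    intro hμ a s u hdiv hN hsu hT h0 hb
    set h := k ^ (μ + 1) with hh
    have hpos : 1 ≤ h := Nat.one_le_pow _ _ (by omega)
    have ek : k ^ (μ + 1 + 1) = k * h := by rw [pow_succ, mul_comm]
    rw [ek] at hN h0 hb ⊢
    set g := p + 1 with hg
    have blk : ∀ i, i + 1 < k → a + (i + 1) * h + h ≤ a + k * h := fun i hi => by
      have : (i + 2) * h ≤ k * h := Nat.mul_le_mul_right _ hi
      nlinarith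
    have mulS : ∀ i, (i + 1) * h = i * h + h := fun i => by ring
    -- the two kinds of statements
    let Done : Prop := ∃ i s' u', i + 1 < k ∧ s ≤ s' ∧ s' ≤ u' ∧ u' ≤ u ∧
      cnt (M s') (a + i * h + 1) (a + (i + 1) * h + 1) = 0 ∧
      Cv N p (a + (i + 1) * h - 1) p ∈ M u' ∧
      ∀ θ, s' < θ → θ ≤ u' → g ≤ cnt (M θ) (a + 1) (a + i * h + 1) +
        cnt (M θ) (a + (i + 1) * h + 1) (a + k * h)
    let St : ℕ → Prop := fun r => ∃ i si ti, i + 1 < k ∧ k ≤ i + 2 + r * g ∧ s ≤ si ∧ si ≤ ti ∧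
      ti ≤ u ∧ cnt (M si) (a + i * h + 1) (a + (i + 1) * h + 1) = 0 ∧
      Cv N p (a + (i + 1) * h) p ∈ M ti ∧
      ∀ θ, si < θ → θ ≤ ti → r ≤ cnt (M θ) (a + (i + 1) * h + 1) (a + k * h)
    have st0 : St 0 := by
      obtain ⟨i, rfl⟩ : ∃ i, k = i + 2 := ⟨k - 2, by omega⟩
      have b1 := blk i (by omega)
      have := mulS i
      obtain ⟨τ, t1, t2, t3⟩ := dep_time hM (dep_bb (lo := lo) (hlo := hlo)
        (n := a + (i + 1) * h) (n' := a + (i + 2) * h - 1) (by omega) (by omega)
        (fun m h1 h2 => Cv_notMem h0 (by omega) (by omega) (by omega))) u hsu hT hb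
      refine ⟨i, s, τ, by omega, by omega, le_rfl, t1, t2, ?_, t3, fun _ _ _ => Nat.zero_le _⟩
      have := cnt_mono (M s) (a := a + i * h + 1) (b := a + (i + 1) * h + 1) (a' := a + 1)
        (b' := a + (i + 2) * h) (by omega) (by omega)
      omega
    have step : ∀ r, r ≤ g → St r → Done ∨ (r < g ∧ St (r + 1)) := by
      rintro r hr ⟨i, si, ti, hi, hki, q1, q2, q3, q4, q5, q6⟩
      have b1 := blk i hi
      have e1 := mulS i
      obtain ⟨m, hm⟩ : ∃ m, a + (i + 1) * h = m + 1 := ⟨a + (i + 1) * h - 1, by omega⟩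
      rw [hm] at q4 q5
      obtain ⟨s', u', w1, w2, w3, w4, w5, w6, w7⟩ :=
        refine_window hM (c := a + i * h + 1) (m := m) (by omega) (by omega) q2 (by omega) q4 q5
      by_cases hA : ∀ θ, s' < θ → θ ≤ u' → g ≤ cnt (M θ) (a + 1) (a + i * h + 1) +
          cnt (M θ) (a + (i + 1) * h + 1) (a + k * h)
      · refine Or.inl ⟨i, s', u', hi, by omega, w2, by omega, ?_, ?_, hA⟩
        · rw [hm]; exact w4
        · rw [hm]; exact w6
      push Not at hA
      obtain ⟨θ, x1, x2, x3⟩ := hA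
      have x4 := q6 θ (by omega) (by omega)
      have hrg : r < g := by omega
      refine Or.inr ⟨hrg, ?_⟩
      have hig : g ≤ i := by
        have h1 : (r + 1) * g ≤ g * g := Nat.mul_le_mul_right _ hrg
        have h2 : (r + 1) * g = r * g + g := by ring
        omega
      obtain ⟨c, rfl⟩ : ∃ c, i = c + g := ⟨i - g, by omega⟩
      have x5 := cnt_mono (M θ) (a := a + c * h + 1) (b := a + (c + g) * h + 1) (a' := a + 1)
        (b' := a + (c + g) * h + 1) (by omega) le_rfl
      obtain ⟨i', y1, y2, y3⟩ := free_block (M θ) a h c g (by omega)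
      obtain ⟨j, hj, hcol⟩ := free_column (A := M θ) (a := a + 1) (b := a + (c + g) * h + 1)
        (by omega)
      have e2 := mulS i'
      have e3 : (i' + 1) * h ≤ (c + g) * h := Nat.mul_le_mul_right _ y2
      obtain ⟨m', hm'⟩ : ∃ m', a + (i' + 1) * h = m' + 1 := ⟨a + (i' + 1) * h - 1, by omega⟩
      have d1 : Dep (FG N p lo hlo) (M θ) (Cv N p (m' + 1) p) (Ov N p (m' + 1) j) :=
        Relation.ReflTransGen.single ⟨hcol _ (by omega) (by omega) (by omega),
          nsrc_Ov (by omega) _, Or.inr (p2_O (by omega) j).symm⟩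
      have d2 : Dep (FG N p lo hlo) (M θ) (Ov N p (m' + 1) j) (Ov N p (a + (c + g) * h) j) :=
        dep_col hj (by omega) (by omega) fun n h1 h2 => hcol n (by omega) (by omega) (by omega)
      have d3 : Dep (FG N p lo hlo) (M θ) (Ov N p (a + (c + g) * h) j) (Cv N p (m + 1) j) := by
        refine Relation.ReflTransGen.single ⟨w7 θ (by omega) x2 j, nsrc_Cv (by omega) _,
          Or.inr ?_⟩
        rw [p2_C (by omega) hj, ← hm, hl (μ + 1) (by omega) a (c + g) hdiv hi]
      have d4 : Dep (FG N p lo hlo) (M θ) (Cv N p (m + 1) j) (Cv N p (m + 1) p) :=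
        dep_chain (by omega) (w7 θ (by omega) x2) hj le_rfl
      obtain ⟨t', z1, z2, z3⟩ := dep_time hM (((d1.trans d2).trans d3).trans d4) ti (by omega)
        (by omega) q5
      have e5 : (r + 1) * g = r * g + g := by ring
      refine ⟨i', θ, t', by omega, by omega, by omega, z1, by omega, y3, ?_, ?_⟩
      · rw [hm']; exact z3
      · intro ρ r1 r2
        have v1 := w5 ρ (by omega) (by omega)
        have v2 := q6 ρ (by omega) (by omega)
        have v3 := cnt_add (M ρ) (a := a + (c + g) * h + 1) (b := m + 2) (c := a + k * h)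
          (by omega) (by omega)
        have v4 := cnt_mono (M ρ) (a := a + (c + g) * h + 1) (b := a + k * h)
          (a' := a + (i' + 1) * h + 1) (b' := a + k * h) (by omega) le_rfl
        rw [hm] at v2
        have : m + 1 + 1 = m + 2 := rfl
        rw [this] at v2
        omega
    have all : ∀ r, r ≤ g → Done ∨ St r := by
      intro r
      induction r with
      | zero => exact fun _ => Or.inr st0
      | succ r ihr =>
        intro hr
        rcases ihr (by omega) with hd | hs
        · exact Or.inl hd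
        · rcases step r (by omega) hs with hd | hs
          · exact Or.inl hd
          · exact Or.inr hs.2
    have done : Done := by
      rcases all g le_rfl with hd | hs
      · exact hd
      · rcases step g le_rfl hs with hd | hs
        · exact hd
        · exact absurd hs.1 (lt_irrefl _)
    obtain ⟨i, s', u', hi, q1, q2, q3, q4, q5, q6⟩ := done
    have b1 := blk i hi
    have e1 := mulS i
    have hdiv' : h ∣ a + i * h := by
      refine Dvd.dvd.add ?_ (Dvd.intro_left i rfl)
      rw [ek] at hdiv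
      exact (Dvd.intro_left k rfl).trans hdiv
    have x0 := cnt_mono (M s') (a := a + i * h + 1) (b := a + i * h + h) (a' := a + i * h + 1)
      (b' := a + (i + 1) * h + 1) le_rfl (by omega)
    have e4 : a + i * h + h - 1 = a + (i + 1) * h - 1 := by omega
    obtain ⟨θ, t1, t2, t3⟩ := ih (by omega) (a + i * h) s' u' hdiv' (by omega) q2 (by omega)
      (by omega) (by rw [e4]; exact q5)
    have hne : s' < θ := by
      rcases lt_or_eq_of_le t1 with h1 | h1
      · exact h1
      · subst h1; omega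
    have v1 := q6 θ hne t2
    have v2 := cnt_add (M θ) (a := a + 1) (b := a + i * h + 1) (c := a + k * h)
      (by omega) (by omega)
    have v3 := cnt_add (M θ) (a := a + i * h + 1) (b := a + (i + 1) * h + 1) (c := a + k * h)
      (by omega) (by omega)
    have v4 := cnt_mono (M θ) (a := a + i * h + 1) (b := a + i * h + h) (a' := a + i * h + 1)
      (b' := a + (i + 1) * h + 1) le_rfl (by omega)
    refine ⟨θ, by omega, by omega, ?_⟩
    have : (μ + 1) * g = μ * g + g := by ring
    omega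

/-- the black pebbling lower bound -/
theorem sink_not_peb (k μ K : ℕ) (hk : (p + 1) * (p + 1) + 2 ≤ k) (hN : N = k ^ (μ + 1))
    (hl : ∀ ν < μ + 1, ∀ a i, k ^ (ν + 1) ∣ a → i + 1 < k →
      lo (a + (i + 1) * k ^ ν) = a + i * k ^ ν)
    (hK : K ≤ μ * (p + 1)) {A : Finset (Vx N p)} (hA : Peb (FG N p lo hlo) K A) :
    (FG N p lo hlo).sink ∉ A := by
  intro hs
  obtain ⟨T, M, h0, hT, hM⟩ := exists_seq hA
  obtain ⟨θ, _, t2, t3⟩ := LB (lo := lo) (hlo := hlo) k (μ + 1) hk hl (M := M) (T := T)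
    (fun i hi => (hM i hi).1) μ le_rfl 0 0 T (dvd_zero _) (by omega) (Nat.zero_le _) le_rfl
    (by rw [h0]; simp [cnt]) (by rw [hT, zero_add, ← hN]; exact hs)
  have := cnt_le_card (M θ) (0 + 1) (0 + k ^ (μ + 1))
  rcases Nat.eq_zero_or_pos θ with h | h
  · subst h
    rw [h0] at this t3
    simp only [Finset.card_empty] at this
    omega
  · have := (hM (θ - 1) (by omega)).2
    have e : θ - 1 + 1 = θ := by omega
    rw [e] at this
    omega

end Pool.Agent.P.MP_a6f615_lc
end

-- part Pool.Agent.P.MP_a6f615_lc.Strategy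
section

namespace Pool.Agent.P.MP_a6f615_lc

open MvPolynomial
open Classical

section general

variable {W : Type} {t : ℕ} {F : Type} [Field F] {G : PG W}

noncomputable def conf (F : Type) [Field F] (t : ℕ) (B : Finset W) (S : Finset (W × W)) :
    Finset (MvPolynomial (Var W t) F) :=
  B.image (TT F t) ∪ S.image fun x => Imp F t x.1 x.2

lemma mem_conf {B : Finset W} {S : Finset (W × W)} {q : MvPolynomial (Var W t) F} :
    q ∈ conf F t B S ↔ (∃ v ∈ B, TT F t v = q) ∨ ∃ x ∈ S, Imp F t x.1 x.2 = q := by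
  simp only [conf, Finset.mem_union, Finset.mem_image]

lemma TT_mem {B : Finset W} {S : Finset (W × W)} {v : W} (h : v ∈ B) :
    TT F t v ∈ conf F t B S := mem_conf.2 (Or.inl ⟨v, h, rfl⟩)

lemma Imp_mem {B : Finset W} {S : Finset (W × W)} {w b : W} (h : (w, b) ∈ S) :
    Imp F t w b ∈ conf F t B S := mem_conf.2 (Or.inr ⟨(w, b), h, rfl⟩)

lemma cost_conf (B : Finset W) (S : Finset (W × W)) :
    cost (conf F t B S) ≤ B.card + 2 * S.card := by
  unfold cost conf
  rw [← Finset.union_sdiff_self_eq_union, Finset.sum_union Finset.disjoint_sdiff]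
  refine Nat.add_le_add ?_ ?_
  · refine (Finset.sum_le_card_nsmul _ _ 1 fun q hq => ?_).trans ?_
    · obtain ⟨v, _, rfl⟩ := Finset.mem_image.1 hq
      exact sz_TT v
    · simpa using Finset.card_image_le
  · refine (Finset.sum_le_card_nsmul _ _ 2 fun q hq => ?_).trans ?_
    · obtain ⟨v, _, rfl⟩ := Finset.mem_image.1 (Finset.mem_sdiff.1 hq).1
      exact sz_Imp _ _
    · have h1 : ((S.image fun x => Imp F t x.1 x.2) \ B.image (TT F t)).card ≤ S.card :=
        (Finset.card_le_card Finset.sdiff_subset).trans Finset.card_image_le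
      simp only [smul_eq_mul]
      omega

def RS (F : Type) [Field F] (G : PG W) (t s : ℕ) (B : Finset W) (S : Finset (W × W)) : Prop :=
  Reach (PP F G t) s ∅ (conf F t B S)

lemma RS.step {s e : ℕ} {B B' : Finset W} {S S' : Finset (W × W)}
    {q : MvPolynomial (Var W t) F} (h : RS F G t s B S) (hd : Der (PP F G t) (conf F t B S) q e)
    (he : B.card + 2 * S.card + e ≤ s) (hB : ∀ v ∈ B', TT F t v = q ∨ v ∈ B)
    (hS : ∀ x ∈ S', Imp F t x.1 x.2 = q ∨ x ∈ S) (hs : B'.card + 2 * S'.card ≤ s) :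
    RS F G t s B' S' := by
  have c1 := cost_conf (F := F) (t := t) B S
  have c2 := cost_conf (F := F) (t := t) B' S'
  refine (Reach.trans' h (hd.2 s (by omega))).trans' (reach_erase (fun r hr => ?_) (by omega))
  rcases mem_conf.1 hr with ⟨v, hv, rfl⟩ | ⟨x, hx, rfl⟩
  · rcases hB v hv with e | e
    · exact mem_ins.2 (Or.inl e)
    · exact ins_mem (TT_mem e)
  · rcases hS x hx with e | e
    · exact mem_ins.2 (Or.inl e)
    · exact ins_mem (Imp_mem e)

lemma RS.weaken {s : ℕ} {B B' : Finset W} {S S' : Finset (W × W)} (h : RS F G t s B S)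
    (hB : ∀ v ∈ B', v ∈ B) (hS : ∀ x ∈ S', x ∈ S) (hs : B'.card + 2 * S'.card ≤ s) :
    RS F G t s B' S' := by
  have c2 := cost_conf (F := F) (t := t) B' S'
  refine Reach.trans' h (reach_erase (fun r hr => ?_) (by omega))
  rcases mem_conf.1 hr with ⟨v, hv, rfl⟩ | ⟨x, hx, rfl⟩
  · exact TT_mem (hB v hv)
  · exact Imp_mem (hS x hx)

lemma RS.empty (s : ℕ) : RS F G t s ∅ ∅ := by
  have : conf F t (∅ : Finset W) ∅ = ∅ := by simp [conf]
  unfold RS
  rw [this]
  exact Reach.refl' _

end general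

variable {N p t : ℕ} {F : Type} [Field F] {lo : ℕ → ℕ} {hlo : ∀ n, 0 < n → lo n < n}

def pr (N p m : ℕ) : Vx N p × Vx N p := (Cv N p (m - 1) p, Cv N p m p)

lemma add_summary (ht : 0 < t) {s m : ℕ} {B : Finset (Vx N p)} {S : Finset (Vx N p × Vx N p)}
    (hm : m + 1 ≤ N) (hB : ∀ j ≤ p, Ov N p (lo (m + 1)) j ∈ B)
    (h : RS F (FG N p lo hlo) t s B S) (hs : B.card + 2 * S.card + 88 ≤ s) :
    RS F (FG N p lo hlo) t s B (insert (pr N p (m + 1)) S) := by
  have key : ∀ j ≤ p, RS F (FG N p lo hlo) t s B (insert (Cv N p m p, Cv N p (m + 1) j) S) := by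
    intro j
    induction j with
    | zero =>
      intro _
      have d := der_half (F := F) (K := conf F t B S) ht (nsrc_Cv (lo := lo) (hlo := hlo) hm 0)
        (TT_mem (by rw [p2_C hm (Nat.zero_le _)]; exact hB 0 (Nat.zero_le _)))
      rw [p1_C0 hm] at d
      have := Finset.card_insert_le (Cv N p m p, Cv N p (m + 1) 0) S
      refine h.step d (by omega) (fun v hv => Or.inr hv) (fun x hx => ?_) (by omega)
      rcases Finset.mem_insert.1 hx with rfl | hx
      · exact Or.inl rfl
      · exact Or.inr hx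
    | succ j ih =>
      intro hj
      have d := der_extend (F := F)
        (K := conf F t B (insert (Cv N p m p, Cv N p (m + 1) j) S)) (w := Cv N p m p) ht
        (nsrc_Cv (lo := lo) (hlo := hlo) hm (j + 1))
        (Imp_mem (by rw [p1_Cs hm hj]; exact Finset.mem_insert_self _ _))
        (TT_mem (by rw [p2_C hm hj]; exact hB _ hj))
      have := Finset.card_insert_le (Cv N p m p, Cv N p (m + 1) j) S
      have := Finset.card_insert_le (Cv N p m p, Cv N p (m + 1) (j + 1)) S
      refine (ih (by omega)).step d (by omega) (fun v hv => Or.inr hv) (fun x hx => ?_) (by omega)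
      rcases Finset.mem_insert.1 hx with rfl | hx
      · exact Or.inl rfl
      · exact Or.inr (Finset.mem_insert_of_mem hx)
  exact key p le_rfl

lemma add_all (ht : 0 < t) {s n c : ℕ} {B : Finset (Vx N p)} (hB : ∀ j ≤ p, Ov N p n j ∈ B)
    (hs : B.card + 2 * c + 88 ≤ s) (U0 : Finset ℕ)
    (h : RS F (FG N p lo hlo) t s B (U0.image (pr N p))) (U : Finset ℕ)
    (hU : ∀ m ∈ U, 0 < m ∧ m ≤ N ∧ lo m = n) (hc : U0.card + U.card ≤ c) :
    RS F (FG N p lo hlo) t s B ((U0 ∪ U).image (pr N p)) := by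
  induction U using Finset.induction_on with
  | empty => simpa using h
  | insert m U hm ih =>
    rw [Finset.card_insert_of_notMem hm] at hc
    obtain ⟨h1, h2, h3⟩ := hU m (Finset.mem_insert_self _ _)
    obtain ⟨m, rfl⟩ : ∃ m', m = m' + 1 := ⟨m - 1, by omega⟩
    have c1 : ((U0 ∪ U).image (pr N p)).card ≤ U0.card + U.card :=
      Finset.card_image_le.trans (Finset.card_union_le _ _)
    have := add_summary ht h2 (by rw [h3]; exact hB)
      (ih (fun m hm => hU m (Finset.mem_insert_of_mem hm)) (by omega)) (by omega)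
    rwa [Finset.union_insert, Finset.image_insert]

/-- intervals that are open at time `n` -/
def Opn (N : ℕ) (lo : ℕ → ℕ) (n : ℕ) : Finset ℕ :=
  (Finset.range (N + 1)).filter fun m => lo m ≤ n ∧ n < m

def Mix (N p n i : ℕ) : Finset (Vx N p) :=
  (Finset.range (p + 1)).image fun j => if j < i then Ov N p (n + 1) j else Ov N p n j

def Row (N p n : ℕ) : Finset (Vx N p) := (Finset.range (p + 1)).image fun j => Ov N p n j

lemma card_Mix (n i : ℕ) : (Mix N p n i).card ≤ p + 1 := by
  simpa [Mix] using Finset.card_image_le (s := Finset.range (p + 1))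
    (f := fun j => if j < i then Ov N p (n + 1) j else Ov N p n j)

lemma card_Row (n : ℕ) : (Row N p n).card ≤ p + 1 := by
  simpa [Row] using Finset.card_image_le (s := Finset.range (p + 1)) (f := fun j => Ov N p n j)

lemma mem_Row {n j : ℕ} (hj : j ≤ p) : Ov N p n j ∈ Row N p n :=
  Finset.mem_image.2 ⟨j, Finset.mem_range.2 (by omega), rfl⟩

lemma finish (ht : 0 < t) {s n c : ℕ} (hc : (Opn N lo n).card ≤ c) (hs : p + 2 + 2 * c + 88 ≤ s)
    (h : RS F (FG N p lo hlo) t s (insert (Cv N p n p) (Row N p n))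
      (((Opn N lo n).filter fun m => lo m < n).image (pr N p))) :
    RS F (FG N p lo hlo) t s (insert (Cv N p n p) (Row N p n)) ((Opn N lo n).image (pr N p)) := by
  have c1 := Finset.card_insert_le (Cv N p n p) (Row N p n)
  have c2 := card_Row (N := N) (p := p) n
  have := add_all ht (n := n) (c := c) (fun j hj => Finset.mem_insert_of_mem (mem_Row hj))
    (by omega) _ h ((Opn N lo n).filter fun m => ¬ lo m < n) ?_ ?_
  · rwa [Finset.filter_union_filter_not_eq] at this
  · intro m hm
    simp only [Opn, Finset.mem_filter, Finset.mem_range] at hm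
    omega
  · rw [Finset.card_filter_add_card_filter_not]; exact hc

lemma row_update (ht : 0 < t) {s n : ℕ} (hn : n + 1 ≤ N) {S : Finset (Vx N p × Vx N p)}
    (hs : p + 2 + 2 * S.card + 88 ≤ s)
    (h : RS F (FG N p lo hlo) t s (insert (Cv N p (n + 1) p) (Row N p n)) S) :
    RS F (FG N p lo hlo) t s (insert (Cv N p (n + 1) p) (Row N p (n + 1))) S := by
  have key : ∀ i ≤ p + 1,
      RS F (FG N p lo hlo) t s (insert (Cv N p (n + 1) p) (Mix N p n i)) S := by
    intro i
    induction i with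
    | zero => intro _; simpa [Mix, Row] using h
    | succ i ih =>
      intro hi
      have hi' : i ≤ p := by omega
      have d := der_place (F := F) (K := conf F t (insert (Cv N p (n + 1) p) (Mix N p n i)) S) ht
        (nsrc_Ov (lo := lo) (hlo := hlo) hn i)
        (TT_mem (by
          rw [p1_O hn hi']
          exact Finset.mem_insert_of_mem
            (Finset.mem_image.2 ⟨i, Finset.mem_range.2 (by omega), by simp⟩)))
        (TT_mem (by rw [p2_O hn]; exact Finset.mem_insert_self _ _))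
      have c1 := Finset.card_insert_le (Cv N p (n + 1) p) (Mix N p n i)
      have c2 := card_Mix (N := N) (p := p) n i
      have c3 := Finset.card_insert_le (Cv N p (n + 1) p) (Mix N p n (i + 1))
      have c4 := card_Mix (N := N) (p := p) n (i + 1)
      refine (ih (by omega)).step d (by omega) (fun v hv => ?_) (fun x hx => Or.inr hx) (by omega)
      rcases Finset.mem_insert.1 hv with rfl | hv
      · exact Or.inr (Finset.mem_insert_self _ _)
      · obtain ⟨j, hj, rfl⟩ := Finset.mem_image.1 hv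
        by_cases h1 : j = i
        · subst h1; left; simp
        · right
          refine Finset.mem_insert_of_mem (Finset.mem_image.2 ⟨j, hj, ?_⟩)
          by_cases h2 : j < i
          · simp [h2, Nat.lt_succ_of_lt h2]
          · have : ¬ j < i + 1 := by omega
            simp [h2, this]
  have e : Mix N p n (p + 1) = Row N p (n + 1) :=
    Finset.image_congr fun j hj => by
      have : j < p + 1 := by simpa using hj
      simp [this]
  rw [← e]
  exact key _ le_rfl

lemma inv_all (ht : 0 < t) {s c : ℕ} (hc : ∀ n, (Opn N lo n).card ≤ c)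
    (hs : p + 2 + 2 * c + 88 ≤ s) : ∀ n ≤ N,
    RS F (FG N p lo hlo) t s (insert (Cv N p n p) (Row N p n)) ((Opn N lo n).image (pr N p)) := by
  intro n
  induction n with
  | zero =>
    intro _
    refine finish ht (hc 0) hs ?_
    have key : ∀ i ≤ p + 1,
        RS F (FG N p lo hlo) t s ((Finset.range i).image fun j => Ov N p 0 j) ∅ := by
      intro i
      induction i with
      | zero => intro _; simpa using RS.empty s
      | succ i ih =>
        intro hi
        have c1 : ((Finset.range i).image fun j => Ov N p 0 j).card ≤ i := by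
          simpa using Finset.card_image_le (s := Finset.range i) (f := fun j => Ov N p 0 j)
        have c2 : ((Finset.range (i + 1)).image fun j => Ov N p 0 j).card ≤ i + 1 := by
          simpa using Finset.card_image_le (s := Finset.range (i + 1)) (f := fun j => Ov N p 0 j)
        refine (ih (by omega)).step (der_src _ ht (src_Ov i)) (by simp; omega) (fun v hv => ?_)
          (by simp) (by simp; omega)
        obtain ⟨j, hj, rfl⟩ := Finset.mem_image.1 hv
        by_cases h1 : j = i
        · subst h1; exact Or.inl rfl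
        · exact Or.inr (Finset.mem_image.2
            ⟨j, Finset.mem_range.2 (by have := Finset.mem_range.1 hj; omega), rfl⟩)
    have c1 := Finset.card_insert_le (Cv N p 0 p) (Row N p 0)
    have c2 := card_Row (N := N) (p := p) 0
    have c3 : (Row N p 0).card + 2 * (∅ : Finset (Vx N p × Vx N p)).card + 86 ≤ s := by
      simp; omega
    refine (key _ le_rfl).step (der_src _ ht (src_Cv p)) c3 (fun v hv => ?_)
      (by simp) (by simp; omega)
    rcases Finset.mem_insert.1 hv with rfl | hv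
    · exact Or.inl rfl
    · exact Or.inr hv
  | succ n ih =>
    intro hn
    refine finish ht (hc _) hs ?_
    have c0 : (((Opn N lo (n + 1)).filter fun m => lo m < n + 1).image (pr N p)).card ≤ c :=
      Finset.card_image_le.trans ((Finset.card_filter_le _ _).trans (hc _))
    refine row_update ht hn (by omega) ?_
    have c1 := Finset.card_insert_le (Cv N p n p) (Row N p n)
    have c2 := card_Row (N := N) (p := p) n
    have c3 := Finset.card_insert_le (Cv N p (n + 1) p) (Row N p n)
    have c4 : ((Opn N lo n).image (pr N p)).card ≤ c := Finset.card_image_le.trans (hc _)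
    have hlo' := hlo (n + 1) (by omega)
    have d := der_mp (F := F) (G := FG N p lo hlo)
      (K := conf F t (insert (Cv N p n p) (Row N p n)) ((Opn N lo n).image (pr N p)))
      (w := Cv N p n p) (b := Cv N p (n + 1) p)
      (Imp_mem (Finset.mem_image.2 ⟨n + 1, by
        simp only [Opn, Finset.mem_filter, Finset.mem_range]; omega, rfl⟩))
      (TT_mem (Finset.mem_insert_self _ _))
    refine (ih (by omega)).step d (by omega) (fun v hv => ?_) (fun x hx => ?_) (by omega)
    · rcases Finset.mem_insert.1 hv with rfl | hv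
      · exact Or.inl rfl
      · exact Or.inr (Finset.mem_insert_of_mem hv)
    · obtain ⟨m, hm, rfl⟩ := Finset.mem_image.1 hx
      refine Or.inr (Finset.mem_image.2 ⟨m, ?_, rfl⟩)
      simp only [Opn, Finset.mem_filter, Finset.mem_range] at hm ⊢
      omega

theorem small_space (ht : 0 < t) {s c : ℕ} (hc : ∀ n, (Opn N lo n).card ≤ c)
    (hs : p + 2 + 2 * c + 88 ≤ s) :
    ∃ M, Reach (PP F (FG N p lo hlo) t) s ∅ M ∧ (1 : MvPolynomial (Var (Vx N p) t) F) ∈ M := by
  have h := inv_all (F := F) (hlo := hlo) ht hc hs (N - 1) (by omega)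
  have h2 : RS F (FG N p lo hlo) t s {Cv N p (N - 1) p} ∅ :=
    h.weaken (by simp) (by simp) (by simp; omega)
  have d := der_final (F := F) (G := FG N p lo hlo) (K := conf F t {Cv N p (N - 1) p} ∅)
    (TT_mem (Finset.mem_singleton_self _))
  have c := cost_conf (F := F) (t := t) {Cv N p (N - 1) p} ∅
  simp only [Finset.card_singleton, Finset.card_empty] at c
  exact ⟨_, Reach.trans' h2 (d.2 s (by omega)), ins_self _ _⟩

/-! the interval structure -/

def nu (k L n : ℕ) : ℕ := Nat.findGreatest (fun ν => k ^ ν ∣ n) L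

def loF (k L n : ℕ) : ℕ := n - k ^ nu k L n

lemma nu_dvd (k L n : ℕ) : k ^ nu k L n ∣ n :=
  Nat.findGreatest_spec (P := fun ν => k ^ ν ∣ n) (Nat.zero_le L) (by simp)

lemma loF_lt {k : ℕ} (hk : 0 < k) (L n : ℕ) (hn : 0 < n) : loF k L n < n := by
  have := Nat.one_le_pow (nu k L n) k hk
  unfold loF
  omega

lemma loF_eq {k L ν : ℕ} (hν : ν < L) (a i : ℕ) (ha : k ^ (ν + 1) ∣ a) (hi : i + 1 < k) :
    loF k L (a + (i + 1) * k ^ ν) = a + i * k ^ ν := by
  have e : nu k L (a + (i + 1) * k ^ ν) = ν := by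
    unfold nu
    rw [Nat.findGreatest_eq_iff]
    refine ⟨hν.le, fun _ => ?_, fun m h1 _ h3 => ?_⟩
    · exact Dvd.dvd.add ((pow_dvd_pow k (Nat.le_succ ν)).trans ha) (Dvd.intro_left _ rfl)
    · have h4 : k ^ (ν + 1) ∣ (i + 1) * k ^ ν :=
        (Nat.dvd_add_right ha).1 ((pow_dvd_pow k h1).trans h3)
      rw [pow_succ, mul_comm] at h4
      have := Nat.le_of_dvd (by omega)
        (Nat.dvd_of_mul_dvd_mul_right (Nat.one_le_pow ν k (by omega)) h4)
      omega
  unfold loF
  rw [e, add_mul]
  omega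

lemma card_Opn {k : ℕ} (hk : 0 < k) (L N n : ℕ) : (Opn N (loF k L) n).card ≤ L + 1 := by
  rw [← Finset.card_range (L + 1)]
  refine Finset.card_le_card_of_injOn (nu k L) (fun m _ => ?_) ?_
  · have : nu k L m ≤ L := Nat.findGreatest_le L
    simpa using Nat.lt_succ_of_le this
  · intro m hm m' hm' e
    simp only [Opn, Finset.coe_filter, Finset.mem_range, Set.mem_ofPred_eq, loF] at hm hm'
    obtain ⟨a, ha⟩ := nu_dvd k L m
    obtain ⟨b, hb⟩ := nu_dvd k L m'
    rw [← e] at hb hm'
    set h := k ^ nu k L m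
    have hpos : 0 < h := Nat.one_le_pow _ _ hk
    rcases lt_trichotomy a b with hab | hab | hab
    · have : h * (a + 1) ≤ h * b := Nat.mul_le_mul_left _ hab
      rw [mul_add] at this
      omega
    · rw [ha, hb, hab]
    · have : h * (b + 1) ≤ h * a := Nat.mul_le_mul_left _ hab
      rw [mul_add] at this
      omega

end Pool.Agent.P.MP_a6f615_lc
end

-- part Pool.Agent.P.MP_a6f615_lc.Weights
section

namespace Pool.Agent.P.MP_a6f615_lc

open Classical

variable {W : Type} [Fintype W] {S : Type} [Fintype S] {F : Type} [Field F]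

/-- integration against a product of block weights -/
noncomputable def LW (u : W → S → F) (f : (W → S) → F) : F := ∑ β : W → S, (∏ v, u v (β v)) * f β

lemma sum_resample (w : W) (s0 : S) (g : (W → S) → F) :
    ∑ β : W → S, g β =
      ∑ β ∈ Finset.univ.filter (fun β : W → S => β w = s0), ∑ σ : S, g (Function.update β w σ) := by
  rw [← Finset.sum_product']
  symm
  refine Finset.sum_bij' (fun x _ => Function.update x.1 w x.2)
    (fun β _ => (Function.update β w s0, β w)) (fun _ _ => Finset.mem_univ _) ?_ ?_ ?_ ?_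
  · intro β _; simp
  · rintro ⟨β, σ⟩ h
    simp only [Finset.mem_product, Finset.mem_filter, Finset.mem_univ, true_and, and_true] at h
    simp [← h]
  · intro β _; simp
  · intro _ _; rfl

lemma LW_block_zero [Nonempty S] (u : W → S → F) (w : W) (f : (W → S) → F)
    (h : ∀ β : W → S, ∑ σ, u w σ * f (Function.update β w σ) = 0) : LW u f = 0 := by
  unfold LW
  rw [sum_resample w (Classical.arbitrary S)]
  refine Finset.sum_eq_zero fun β _ => ?_
  have : ∀ σ : S, (∏ v, u v (Function.update β w σ v)) * f (Function.update β w σ) =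
      (∏ v ∈ Finset.univ.erase w, u v (β v)) * (u w σ * f (Function.update β w σ)) := by
    intro σ
    rw [← Finset.mul_prod_erase _ _ (Finset.mem_univ w), Function.update_self]
    have : ∏ v ∈ Finset.univ.erase w, u v (Function.update β w σ v) =
        ∏ v ∈ Finset.univ.erase w, u v (β v) :=
      Finset.prod_congr rfl fun v hv => by rw [Function.update_of_ne (Finset.ne_of_mem_erase hv)]
    rw [this]; ring
  simp_rw [this]
  rw [← Finset.mul_sum, h, mul_zero]

lemma LW_update (u : W → S → F) (w : W) (a : S → F) (f : (W → S) → F) :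
    LW (Function.update u w a) f =
      ∑ β : W → S, a (β w) * ((∏ v ∈ Finset.univ.erase w, u v (β v)) * f β) := by
  unfold LW
  refine Finset.sum_congr rfl fun β _ => ?_
  rw [← Finset.mul_prod_erase _ _ (Finset.mem_univ w), Function.update_self]
  have : ∏ v ∈ Finset.univ.erase w, Function.update u w a v (β v) =
      ∏ v ∈ Finset.univ.erase w, u v (β v) :=
    Finset.prod_congr rfl fun v hv => by rw [Function.update_of_ne (Finset.ne_of_mem_erase hv)]
  rw [this]; ring

/-- point mass -/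
noncomputable def del (F : Type) [Field F] (τ : S) : S → F := fun σ => if σ = τ then 1 else 0

lemma LW_expand (u : W → S → F) (w : W) (a : S → F) (f : (W → S) → F) :
    LW (Function.update u w a) f = ∑ τ, a τ * LW (Function.update u w (del F τ)) f := by
  simp_rw [LW_update, Finset.mul_sum]
  rw [Finset.sum_comm]
  refine Finset.sum_congr rfl fun β _ => ?_
  simp [del]

lemma LW_indep [Nonempty S] (u : W → S → F) (w : W) (a b : S → F) (f : (W → S) → F)
    (ha : ∑ σ, a σ = 1) (hb : ∑ σ, b σ = 1) (hf : ∀ β σ, f (Function.update β w σ) = f β) :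
    LW (Function.update u w a) f = LW (Function.update u w b) f := by
  have h := LW_block_zero (Function.update u w (a - b)) w f (fun β => by
    simp_rw [hf, Function.update_self, ← Finset.sum_mul]
    simp [Finset.sum_sub_distrib, ha, hb])
  rw [LW_update] at h
  rw [LW_update, LW_update, ← sub_eq_zero, ← Finset.sum_sub_distrib, ← h]
  refine Finset.sum_congr rfl fun β _ => ?_
  simp [sub_mul]

lemma sum_del (τ : S) : ∑ σ, del F τ σ = 1 := by simp [del]

lemma LW_one (u : W → S → F) (h : ∀ v, ∑ σ, u v σ = 1) : LW u 1 = 1 := by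
  unfold LW
  simp only [Pi.one_apply, mul_one]
  have := Finset.prod_univ_sum (fun _ : W => (Finset.univ : Finset S)) u
  rw [Fintype.piFinset_univ] at this
  rw [← this]
  simp [h]

/-- `LW u` as a linear map -/
noncomputable def LWlin (u : W → S → F) : ((W → S) → F) →ₗ[F] F where
  toFun := LW u
  map_add' f g := by simp [LW, mul_add, Finset.sum_add_distrib]
  map_smul' c f := by
    simp only [LW, Pi.smul_apply, smul_eq_mul, RingHom.id_apply, Finset.mul_sum]
    exact Finset.sum_congr rfl fun β _ => by ring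

/-! the signed block measure -/

variable {t : ℕ}

def ff (t : ℕ) : Fin t → Bool := fun _ => false

noncomputable def sgn (F : Type) [Field F] (σ : Fin t → Bool) : F :=
  ∏ l, if σ l = true then -1 else 1

noncomputable def lam (F : Type) [Field F] (σ : Fin t → Bool) : F := del F (ff t) σ - sgn F σ

def flp (σ : Fin t → Bool) (j : Fin t) : Fin t → Bool := Function.update σ j (!σ j)

lemma flp_flp (σ : Fin t → Bool) (j : Fin t) : flp (flp σ j) j = σ := by
  simp [flp]

lemma flp_ne (σ : Fin t → Bool) (j : Fin t) : flp σ j ≠ σ := by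
  intro h
  have := congrFun h j
  simp [flp] at this

lemma sgn_flp (σ : Fin t → Bool) (j : Fin t) : sgn F (flp σ j) = - sgn F σ := by
  unfold sgn
  rw [← Finset.mul_prod_erase _ _ (Finset.mem_univ j),
    ← Finset.mul_prod_erase _ (fun l => if σ l = true then (-1 : F) else 1) (Finset.mem_univ j)]
  have : ∏ l ∈ Finset.univ.erase j, (if flp σ j l = true then (-1 : F) else 1) =
      ∏ l ∈ Finset.univ.erase j, (if σ l = true then (-1 : F) else 1) :=
    Finset.prod_congr rfl fun l hl => by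
      rw [flp, Function.update_of_ne (Finset.ne_of_mem_erase hl)]
  rw [this]
  cases h : σ j <;> simp [flp, h]

lemma sum_sgn_mul (h : (Fin t → Bool) → F) (j : Fin t) (hh : ∀ σ, h (flp σ j) = h σ) :
    ∑ σ, sgn F σ * h σ = 0 :=
  Finset.sum_involution (fun σ _ => flp σ j) (fun σ _ => by rw [sgn_flp, hh]; ring)
    (fun σ _ _ => flp_ne σ j) (fun _ _ => Finset.mem_univ _) (fun σ _ => flp_flp σ j)

lemma sum_lam_mul (h : (Fin t → Bool) → F) (j : Fin t) (hh : ∀ σ, h (flp σ j) = h σ) :
    ∑ σ, lam F σ * h σ = h (ff t) := by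
  simp_rw [lam, sub_mul]
  rw [Finset.sum_sub_distrib, sum_sgn_mul h j hh]
  simp [del]

lemma sum_lam (ht : 0 < t) : ∑ σ : Fin t → Bool, lam F σ = 1 := by
  simpa using sum_lam_mul (F := F) (fun _ => 1) ⟨0, ht⟩ (fun _ => rfl)

lemma lam_ff : lam F (ff t) = 0 := by simp [lam, del, sgn, ff]

/-- block weights of a pebbling with chosen witnesses -/
noncomputable def wt (F : Type) [Field F] (z : W → Option (Fin t → Bool)) :
    W → (Fin t → Bool) → F := fun v => (z v).elim (lam F) (del F)

noncomputable def LL (z : W → Option (Fin t → Bool)) : ((W → Fin t → Bool) → F) →ₗ[F] F :=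
  LWlin (wt F z)

lemma LL_apply (z : W → Option (Fin t → Bool)) (f : (W → Fin t → Bool) → F) :
    LL z f = LW (wt F z) f := rfl

omit [Fintype W] in
lemma wt_update (z : W → Option (Fin t → Bool)) (w : W) (o : Option (Fin t → Bool)) :
    wt F (Function.update z w o) = Function.update (wt F z) w (o.elim (lam F) (del F)) := by
  funext v
  by_cases h : v = w
  · subst h; simp [wt]
  · simp [wt, Function.update_of_ne h]

lemma LL_expand (z : W → Option (Fin t → Bool)) {w : W} (hw : z w = none)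
    (f : (W → Fin t → Bool) → F) :
    LL z f = ∑ τ, lam F τ * LL (Function.update z w (some τ)) f := by
  have e : z = Function.update z w none := by rw [← hw]; simp
  simp_rw [LL_apply, wt_update]
  conv_lhs => rw [e, wt_update]
  exact LW_expand _ _ _ _

lemma LL_indep (ht : 0 < t) (z : W → Option (Fin t → Bool)) (w : W)
    (o o' : Option (Fin t → Bool)) (f : (W → Fin t → Bool) → F)
    (hf : ∀ β σ, f (Function.update β w σ) = f β) :
    LL (Function.update z w o) f = LL (Function.update z w o') f := by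
  simp_rw [LL_apply, wt_update]
  refine LW_indep _ _ _ _ _ ?_ ?_ hf
  · cases o
    · exact sum_lam ht
    · exact sum_del _
  · cases o'
    · exact sum_lam ht
    · exact sum_del _

lemma LL_vanish (z : W → Option (Fin t → Bool)) {w : W} (hw : z w = none) (j : Fin t)
    (f : (W → Fin t → Bool) → F) (hf : ∀ β, f (Function.update β w (flp (β w) j)) = f β)
    (h0 : ∀ β, β w = ff t → f β = 0) : LL z f = 0 := by
  refine LW_block_zero _ w f fun β => ?_
  have e : wt F z w = lam F := by simp [wt, hw]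
  rw [e, sum_lam_mul (fun σ => f (Function.update β w σ)) j]
  · exact h0 _ (by simp)
  · intro σ
    simpa using hf (Function.update β w σ)

lemma LL_pinned (z : W → Option (Fin t → Bool)) (h f : (W → Fin t → Bool) → F) (c : F)
    (hc : ∀ β : W → Fin t → Bool, (∀ v τ, z v = some τ → β v = τ) → h β = c) :
    LL z (h * f) = c * LL z f := by
  simp only [LL_apply, LW, Finset.mul_sum]
  refine Finset.sum_congr rfl fun β _ => ?_
  by_cases hβ : ∀ v τ, z v = some τ → β v = τ
  · rw [Pi.mul_apply, hc β hβ]; ring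
  · push Not at hβ
    obtain ⟨v, τ, h1, h2⟩ := hβ
    rw [Finset.prod_eq_zero (Finset.mem_univ v) (by simp [wt, h1, del, h2])]
    simp

lemma LL_zero_of_ff (z : W → Option (Fin t → Bool)) (v : W) (hz : ∀ τ, z v = some τ → τ ≠ ff t)
    (f : (W → Fin t → Bool) → F) (hf : ∀ β, β v ≠ ff t → f β = 0) : LL z f = 0 := by
  simp only [LL_apply, LW]
  refine Finset.sum_eq_zero fun β _ => ?_
  by_cases hβ : β v = ff t
  · rw [Finset.prod_eq_zero (Finset.mem_univ v), zero_mul]
    cases h : z v with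
    | none => simp [wt, h, hβ, lam_ff]
    | some τ => simp [wt, h, hβ, del, (hz τ h).symm]
  · rw [hf β hβ, mul_zero]

lemma LL_none_one (ht : 0 < t) : LL (F := F) (fun _ : W => (none : Option (Fin t → Bool))) 1 = 1 :=
  LW_one _ fun _ => sum_lam ht

lemma LL_expand_all (f : (W → Fin t → Bool) → F) (N : Finset W) :
    ∀ z : W → Option (Fin t → Bool), (∀ w ∈ N, z w = none) →
      (∀ z' : W → Option (Fin t → Bool), (∀ w ∉ N, z' w = z w) →
        (∀ w ∈ N, ∃ τ, τ ≠ ff t ∧ z' w = some τ) → LL z' f = 0) → LL z f = 0 := by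
  induction N using Finset.induction_on with
  | empty => exact fun z _ h => h z (fun _ _ => rfl) (by simp)
  | insert a N ha ih =>
    intro z hz h
    rw [LL_expand z (hz a (Finset.mem_insert_self _ _))]
    refine Finset.sum_eq_zero fun τ _ => ?_
    by_cases hτ : τ = ff t
    · rw [hτ, lam_ff, zero_mul]
    rw [ih (Function.update z a (some τ)), mul_zero]
    · intro w hw
      rw [Function.update_of_ne (fun e : w = a => ha (e ▸ hw))]
      exact hz w (Finset.mem_insert_of_mem hw)
    · intro z' h1 h2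
      refine h z' (fun w hw => ?_) (fun w hw => ?_)
      · rw [Finset.mem_insert, not_or] at hw
        rw [h1 w hw.2, Function.update_of_ne hw.1]
      · rcases Finset.mem_insert.1 hw with rfl | hw
        · exact ⟨τ, hτ, by rw [h1 w ha, Function.update_self]⟩
        · exact h2 w hw

/-- pebbled vertices -/
noncomputable def dom (z : W → Option (Fin t → Bool)) : Finset W :=
  Finset.univ.filter fun v => z v ≠ none

noncomputable def restr (z : W → Option (Fin t → Bool)) (A : Finset W) :
    W → Option (Fin t → Bool) := fun v => if v ∈ A then z v else none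

lemma alt_sum_zero (ht : 0 < t) (z : W → Option (Fin t → Bool)) (B : Finset W) {w : W}
    (hw : w ∈ B) (f : (W → Fin t → Bool) → F) (hf : ∀ β σ, f (Function.update β w σ) = f β) :
    ∑ A ∈ B.powerset, (-1 : F) ^ A.card * LL (restr z A) f = 0 := by
  rw [← Finset.insert_erase hw, Finset.sum_powerset_insert (Finset.notMem_erase w B),
    ← Finset.sum_add_distrib]
  refine Finset.sum_eq_zero fun A hA => ?_
  have hwA : w ∉ A := fun h => Finset.notMem_erase w B (Finset.mem_powerset.1 hA h)
  have e1 : restr z (insert w A) = Function.update (restr z A) w (z w) := by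
    funext v
    by_cases h : v = w
    · subst h; simp [restr]
    · simp [restr, h]
  have e2 : restr z A = Function.update (restr z A) w none := by
    funext v
    by_cases h : v = w
    · subst h; simp [restr, hwA]
    · simp [restr, h]
  rw [Finset.card_insert_of_notMem hwA, e1, LL_indep ht _ w (z w) none f hf, ← e2]
  ring

end Pool.Agent.P.MP_a6f615_lc
end

-- part Pool.Agent.P.MP_a6f615_lc.Degree
section

namespace Pool.Agent.P.MP_a6f615_lc

open MvPolynomial
open Classical

variable {W : Type} {t : ℕ} {F : Type} [Field F]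

/-- the intended meaning of each variable as a function of the witness pattern -/
noncomputable def gen (F : Type) [Field F] (G : PG W) : Var W t → (W → Fin t → Bool) → F
  | Sum.inl (v, j), β => if β v j = true then 0 else 1
  | Sum.inr (v, i, i', j), β =>
      if (G.src v ∨ (β (G.p1 v) i = true ∧ β (G.p2 v) i' = true)) ∧
        ∀ l : Fin t, l.val < j.val → β v l = false then 1 else 0

variable {G : PG W}

lemma gen_01 (x : Var W t) (β : W → Fin t → Bool) : gen F G x β = 0 ∨ gen F G x β = 1 := by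
  rcases x with ⟨v, j⟩ | ⟨v, i, i', j⟩ <;> simp only [gen] <;> split_ifs <;> simp

lemma gen_sq (x : Var W t) (β : W → Fin t → Bool) : gen F G x β * gen F G x β = gen F G x β := by
  rcases gen_01 (F := F) (G := G) x β with h | h <;> simp [h]

lemma gen_pow (x : Var W t) (β : W → Fin t → Bool) {n : ℕ} (hn : n ≠ 0) :
    gen F G x β ^ n = gen F G x β := by
  rcases gen_01 (F := F) (G := G) x β with h | h <;> simp [h, hn]

noncomputable def termF (F : Type) [Field F] (G : PG W) (S : Finset (Var W t)) :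
    (W → Fin t → Bool) → F := fun β => ∏ x ∈ S, gen F G x β

noncomputable def hat (G : PG W) (q : MvPolynomial (Var W t) F) : (W → Fin t → Bool) → F :=
  fun β => eval (fun x => gen F G x β) q

lemma gen_mul_termF (x : Var W t) (S : Finset (Var W t)) :
    gen F G x * termF F G S = termF F G (insert x S) := by
  funext β
  by_cases h : x ∈ S
  · rw [Finset.insert_eq_of_mem h, Pi.mul_apply, termF, ← Finset.mul_prod_erase _ _ h,
      ← mul_assoc, gen_sq]
  · simp [termF, Finset.prod_insert h]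

lemma hat_eq (q : MvPolynomial (Var W t) F) :
    hat G q = ∑ m ∈ q.support, coeff m q • termF F G m.support := by
  funext β
  simp only [hat, eval_eq, Finset.sum_apply, Pi.smul_apply, smul_eq_mul, termF]
  refine Finset.sum_congr rfl fun m _ => ?_
  congr 1
  exact Finset.prod_congr rfl fun x hx => gen_pow x β (Finsupp.mem_support_iff.1 hx)

lemma lin_vanish {D : ℕ} (Φ : ((W → Fin t → Bool) → F) →ₗ[F] F)
    (h : ∀ S : Finset (Var W t), S.card ≤ D → Φ (termF F G S) = 0)
    {q : MvPolynomial (Var W t) F} (hq : q.totalDegree ≤ D) : Φ (hat G q) = 0 := by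
  rw [hat_eq, map_sum]
  refine Finset.sum_eq_zero fun m hm => ?_
  rw [map_smul, h, smul_zero]
  refine le_trans ?_ ((le_totalDegree hm).trans hq)
  rw [Finset.card_eq_sum_ones]
  exact Finset.sum_le_sum fun x hx => Nat.one_le_iff_ne_zero.2 (Finsupp.mem_support_iff.1 hx)

/-- blocks touched by a variable -/
noncomputable def tch (G : PG W) : Var W t → Finset W
  | Sum.inl (v, _) => {v}
  | Sum.inr (v, _, _, _) => {v, G.p1 v, G.p2 v}

lemma card_tch (x : Var W t) : (tch G x).card ≤ 3 := by
  rcases x with ⟨v, j⟩ | ⟨v, i, i', j⟩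
  · simp [tch]
  · exact Finset.card_le_three

lemma gen_congr (x : Var W t) {β β' : W → Fin t → Bool} (h : ∀ v ∈ tch G x, β v = β' v) :
    gen F G x β = gen F G x β' := by
  rcases x with ⟨v, j⟩ | ⟨v, i, i', j⟩
  · simp only [gen, h v (by simp [tch])]
  · simp only [gen, h v (by simp [tch]), h (G.p1 v) (by simp [tch]), h (G.p2 v) (by simp [tch])]

/-- coordinates read by a variable outside its own block -/
noncomputable def crd : Var W t → Finset (Fin t)
  | Sum.inl (_, j) => {j}
  | Sum.inr (_, i, i', _) => {i, i'}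

lemma card_crd (x : Var W t) : (crd x).card ≤ 2 := by
  rcases x with ⟨v, j⟩ | ⟨v, i, i', j⟩
  · simp [crd]
  · exact Finset.card_le_two

lemma upd_flp_apply (β : W → Fin t → Bool) (w v : W) {j j' : Fin t} (h : j ≠ j') :
    Function.update β w (flp (β w) j') v j = β v j := by
  by_cases hv : v = w
  · subst hv; simp [flp, Function.update_of_ne h]
  · rw [Function.update_of_ne hv]

lemma gen_flp (x : Var W t) (β : W → Fin t → Bool) (w : W) {j' : Fin t} (hj : j' ∉ crd x)
    (hx : ∀ i i' j, x ≠ Sum.inr (w, i, i', j)) :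
    gen F G x (Function.update β w (flp (β w) j')) = gen F G x β := by
  rcases x with ⟨v, j⟩ | ⟨v, i, i', j⟩
  · simp only [crd, Finset.mem_singleton] at hj
    simp only [gen, upd_flp_apply β w v (Ne.symm hj)]
  · simp only [crd, Finset.mem_insert, Finset.mem_singleton, not_or] at hj
    have hv : v ≠ w := fun e => hx i i' j (by rw [e])
    simp only [gen, upd_flp_apply β w _ (Ne.symm hj.1), upd_flp_apply β w _ (Ne.symm hj.2),
      Function.update_of_ne hv]

variable [Fintype W]

def Marked (f : (W → Fin t → Bool) → F) (w : W) : Prop := ∃ i, ∀ β, β w i = false → f β = 0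

lemma vanish_unless_ext (z : W → Option (Fin t → Bool)) (h0 : Bool → F) (v0 : W) (j0 : Fin t)
    (S : Finset (Var W t)) (hS : 2 * S.card + 1 < t) {w : W} (hw : z w = none)
    (hm : Marked (fun β => h0 (β v0 j0) * termF F G S β) w)
    (hE : ∀ i i' j, Sum.inr (w, i, i', j) ∉ S) :
    LL z (fun β => h0 (β v0 j0) * termF F G S β) = 0 := by
  have hc : (insert j0 (S.biUnion crd)).card < (Finset.univ : Finset (Fin t)).card := by
    have h1 := Finset.card_insert_le j0 (S.biUnion crd)
    have h2 : (S.biUnion crd).card ≤ S.card * 2 :=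
      Finset.card_biUnion_le_card_mul _ _ _ fun x _ => card_crd x
    simp only [Finset.card_univ, Fintype.card_fin]
    omega
  obtain ⟨j', _, hj'⟩ := Finset.exists_mem_notMem_of_card_lt_card hc
  rw [Finset.mem_insert, not_or, Finset.mem_biUnion] at hj'
  refine LL_vanish z hw j' _ (fun β => ?_) (fun β hβ => ?_)
  · rw [upd_flp_apply β w v0 (Ne.symm hj'.1)]
    congr 1
    refine Finset.prod_congr rfl fun x hx => gen_flp x β w (fun h => hj'.2 ⟨x, hx, h⟩) ?_
    rintro i i' j rfl
    exact hE i i' j hx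
  · obtain ⟨i, hi⟩ := hm
    exact hi β (by rw [hβ]; rfl)

def Anc (G : PG W) (z : W → Option (Fin t → Bool)) (a b : W) : Prop :=
  z a = none ∧ ¬ G.src a ∧ (b = G.p1 a ∨ b = G.p2 a)

/-- unpebbled ancestors of the demanded vertices -/
noncomputable def NN (G : PG W) (z : W → Option (Fin t → Bool)) (Dem : Finset W) : Finset W :=
  Finset.univ.filter fun w => z w = none ∧ ∃ d ∈ Dem, Relation.ReflTransGen (Anc G z) d w

lemma large_case (z : W → Option (Fin t → Bool)) (h0 : Bool → F) (v0 : W) (j0 : Fin t)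
    (S : Finset (Var W t)) (hS : 2 * S.card + 1 < t) (Dem : Finset W)
    (hD : ∀ d ∈ Dem, Marked (fun β => h0 (β v0 j0) * termF F G S β) d)
    (hN : S.card < (NN G z Dem).card) :
    LL z (fun β => h0 (β v0 j0) * termF F G S β) = 0 := by
  by_contra hne
  have ext : ∀ w, z w = none → Marked (fun β => h0 (β v0 j0) * termF F G S β) w →
      ∃ i i' j, Sum.inr (w, i, i', j) ∈ S := by
    intro w hw hm
    by_contra hc
    push Not at hc
    exact hne (vanish_unless_ext z h0 v0 j0 S hS hw hm hc)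
  have mk : ∀ d ∈ Dem, ∀ w, Relation.ReflTransGen (Anc G z) d w →
      Marked (fun β => h0 (β v0 j0) * termF F G S β) w := by
    intro d hd w h
    induction h with
    | refl => exact hD d hd
    | @tail a b _ hab ih =>
      obtain ⟨i, i', j, hx⟩ := ext a hab.1 ih
      rcases hab.2.2 with rfl | rfl
      · refine ⟨i, fun β hβ => ?_⟩
        simp only [termF]
        rw [Finset.prod_eq_zero hx (by simp [gen, hab.2.1, hβ]), mul_zero]
      · refine ⟨i', fun β hβ => ?_⟩
        simp only [termF]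
        rw [Finset.prod_eq_zero hx (by simp [gen, hab.2.1, hβ]), mul_zero]
  have : NN G z Dem ⊆ S.image (Sum.elim (fun a => a.1) (fun a => a.1)) := by
    intro w hw
    obtain ⟨h1, d, hd, h2⟩ := (Finset.mem_filter.1 hw).2
    obtain ⟨i, i', j, hx⟩ := ext w h1 (mk d hd w h2)
    exact Finset.mem_image.2 ⟨_, hx, rfl⟩
  have := (Finset.card_le_card this).trans Finset.card_image_le
  omega

def Legal (G : PG W) (K : ℕ) (z : W → Option (Fin t → Bool)) : Prop :=
  (∀ v τ, z v = some τ → τ ≠ ff t) ∧ Peb G K (dom z)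

lemma mem_dom {z : W → Option (Fin t → Bool)} {v : W} : v ∈ dom z ↔ z v ≠ none := by simp [dom]

lemma small_case {K r n : ℕ} {z : W → Option (Fin t → Bool)} (hz : Legal G K z)
    (hr : (dom z).card ≤ r) (Dem : Finset W) (v0 : W) (hN : (NN G z Dem).card ≤ n)
    (hK : r + n + 1 ≤ K) (hv0 : v0 ∈ Dem ∨ G.src v0 ∨ (G.p1 v0 ∈ Dem ∧ G.p2 v0 ∈ Dem))
    (h f : (W → Fin t → Bool) → F)
    (hh : ∀ β β' : W → Fin t → Bool, (∀ v ∈ insert v0 Dem, β v = β' v) → h β = h β')
    (hf : ∀ z' : W → Option (Fin t → Bool), Legal G K z' → LL z' f = 0) :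
    LL z (h * f) = 0 := by
  set N' := (insert v0 (NN G z Dem)).filter fun w => z w = none with hN'
  have hDem : ∀ d ∈ Dem, d ∈ dom z ∪ N' := by
    intro d hd
    by_cases hzd : z d = none
    · refine Finset.mem_union_right _ (Finset.mem_filter.2 ⟨Finset.mem_insert_of_mem ?_, hzd⟩)
      exact Finset.mem_filter.2 ⟨Finset.mem_univ _, hzd, d, hd, Relation.ReflTransGen.refl⟩
    · exact Finset.mem_union_left _ (mem_dom.2 hzd)
  have hv : v0 ∈ dom z ∪ N' := by
    by_cases hzd : z v0 = none
    · exact Finset.mem_union_right _ (Finset.mem_filter.2 ⟨Finset.mem_insert_self _ _, hzd⟩)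
    · exact Finset.mem_union_left _ (mem_dom.2 hzd)
  have hNN : ∀ w ∈ NN G z Dem, G.src w ∨ (G.p1 w ∈ dom z ∪ N' ∧ G.p2 w ∈ dom z ∪ N') := by
    intro w hw
    obtain ⟨h1, d, hd, h2⟩ := (Finset.mem_filter.1 hw).2
    by_cases hs : G.src w
    · exact Or.inl hs
    have key : ∀ b, (b = G.p1 w ∨ b = G.p2 w) → b ∈ dom z ∪ N' := by
      intro b hb
      by_cases hzb : z b = none
      · refine Finset.mem_union_right _ (Finset.mem_filter.2 ⟨Finset.mem_insert_of_mem ?_, hzb⟩)
        exact Finset.mem_filter.2 ⟨Finset.mem_univ _, hzb, d, hd,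
          Relation.ReflTransGen.tail h2 ⟨h1, hs, hb⟩⟩
      · exact Finset.mem_union_left _ (mem_dom.2 hzb)
    exact Or.inr ⟨key _ (Or.inl rfl), key _ (Or.inr rfl)⟩
  have hpeb : Peb G K (dom z ∪ N') := by
    refine hz.2.closure (fun w hw => ?_) ?_
    · rcases Finset.mem_union.1 hw with hw | hw
      · exact Or.inl hw
      · right
        obtain ⟨h1, h2⟩ := Finset.mem_filter.1 hw
        rcases Finset.mem_insert.1 h1 with rfl | h1
        · rcases hv0 with h3 | h3 | h3
          · exact hNN _ (Finset.mem_filter.2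
              ⟨Finset.mem_univ _, h2, w, h3, Relation.ReflTransGen.refl⟩)
          · exact Or.inl h3
          · exact Or.inr ⟨hDem _ h3.1, hDem _ h3.2⟩
        · exact hNN _ h1
    · have h1 := Finset.card_union_le (dom z) N'
      have h2 : N'.card ≤ (insert v0 (NN G z Dem)).card := Finset.card_filter_le _ _
      have h3 := Finset.card_insert_le v0 (NN G z Dem)
      omega
  refine LL_expand_all _ N' z (fun w hw => (Finset.mem_filter.1 hw).2) fun z' h1 h2 => ?_
  have hdom : ∀ w, w ∈ dom z' ↔ w ∈ dom z ∪ N' := by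
    intro w
    rw [Finset.mem_union, mem_dom, mem_dom]
    by_cases hw : w ∈ N'
    · obtain ⟨τ, _, e⟩ := h2 w hw
      simp [hw, e]
    · simp [hw, h1 w hw]
  have hleg : Legal G K z' := by
    refine ⟨fun v τ e => ?_, hpeb.subset fun w hw => (hdom w).1 hw⟩
    by_cases hw : v ∈ N'
    · obtain ⟨τ', h3, e'⟩ := h2 v hw
      rw [e] at e'
      rw [Option.some.inj e']; exact h3
    · exact hz.1 v τ (by rw [← h1 v hw, e])
  rw [LL_pinned z' h f (h fun v => (z' v).getD (ff t)), hf z' hleg, mul_zero]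
  intro β hβ
  refine hh _ _ fun v hv' => ?_
  have : v ∈ dom z' := by
    rw [hdom]
    rcases Finset.mem_insert.1 hv' with rfl | hv'
    · exact hv
    · exact hDem v hv'
  obtain ⟨τ, e⟩ := Option.ne_none_iff_exists'.1 (mem_dom.1 this)
  rw [hβ v τ e, e]; rfl

lemma reduce {K D : ℕ} (ht : 0 < t) (x : Var W t) {q : MvPolynomial (Var W t) F}
    (hq : q.totalDegree ≤ D)
    (hsmall : ∀ z : W → Option (Fin t → Bool), Legal G K z → (dom z).card ≤ 3 * (D + 1) →
      LL z (gen F G x * hat G q) = 0) :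
    ∀ z : W → Option (Fin t → Bool), Legal G K z → LL z (gen F G x * hat G q) = 0 := by
  intro z
  induction hn : (dom z).card using Nat.strong_induction_on generalizing z with
  | _ n ih =>
    intro hz
    by_cases hc : (dom z).card ≤ 3 * (D + 1)
    · exact hsmall z hz hc
    have alt : ∑ A ∈ (dom z).powerset, (-1 : F) ^ A.card * LL (restr z A) (gen F G x * hat G q)
        = 0 := by
      have := lin_vanish (G := G) (D := D)
        (∑ A ∈ (dom z).powerset, (-1 : F) ^ A.card •
          (LL (restr z A)).comp (LinearMap.mulLeft F (gen F G x))) ?_ hq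
      · simpa using this
      · intro S hS
        have hT : ((insert x S).biUnion (tch G)).card < (dom z).card := by
          have h1 : ((insert x S).biUnion (tch G)).card ≤ (insert x S).card * 3 :=
            Finset.card_biUnion_le_card_mul _ _ _ fun y _ => card_tch y
          have h2 := Finset.card_insert_le x S
          omega
        obtain ⟨w, hw, hw'⟩ := Finset.exists_mem_notMem_of_card_lt_card hT
        have := alt_sum_zero ht z (dom z) hw (termF F G (insert x S)) (fun β σ => by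
          refine Finset.prod_congr rfl fun y hy => gen_congr y fun v hv => ?_
          rw [Function.update_of_ne]
          rintro rfl
          exact hw' (Finset.mem_biUnion.2 ⟨y, hy, hv⟩))
        simpa [gen_mul_termF] using this
    rw [Finset.sum_eq_single (dom z)] at alt
    · have e : restr z (dom z) = z := by
        funext v
        by_cases h : z v = none <;> simp [restr, mem_dom, h]
      rw [e] at alt
      simpa using alt
    · intro A hA hne
      have hsub : dom (restr z A) ⊆ A := by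
        intro v hv
        by_contra h
        exact mem_dom.1 hv (by simp [restr, h])
      have hA' := Finset.mem_powerset.1 hA
      have hlt : (dom (restr z A)).card < n :=
        hn ▸ (Finset.card_le_card hsub).trans_lt
          (Finset.card_lt_card (Finset.ssubset_iff_subset_ne.2 ⟨hA', hne⟩))
      rw [ih _ hlt (restr z A) rfl, mul_zero]
      refine ⟨fun v τ e => hz.1 v τ ?_, hz.2.subset (hsub.trans hA')⟩
      by_cases h : v ∈ A
      · simpa [restr, h] using e
      · simp [restr, h] at e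
    · intro h; exact absurd (Finset.mem_powerset_self _) h

lemma closure_step {K D : ℕ} (ht : 2 * D + 3 < t) (hK : 4 * D + 5 ≤ K) (x : Var W t)
    {q : MvPolynomial (Var W t) F} (hq : q.totalDegree ≤ D)
    (hg : ∀ z : W → Option (Fin t → Bool), Legal G K z → LL z (hat G q) = 0) :
    ∀ z : W → Option (Fin t → Bool), Legal G K z → LL z (gen F G x * hat G q) = 0 := by
  refine reduce (by omega) x hq fun z hz hr => ?_
  rcases x with ⟨v, j⟩ | ⟨v, i, i', j⟩
  · set h : (W → Fin t → Bool) → F := fun β => if β v j = true then 1 else 0 with hh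
    have e : gen F G (Sum.inl (v, j)) * hat G q = hat G q - h * hat G q := by
      funext β
      simp only [gen, hh, Pi.mul_apply, Pi.sub_apply]
      split_ifs <;> simp
    rw [e, map_sub, hg z hz, zero_sub, neg_eq_zero]
    by_cases hN : (NN G z {v}).card ≤ D + 1
    · refine small_case hz hr {v} v hN (by omega) (Or.inl (by simp)) h _ ?_ hg
      intro β β' hβ
      simp only [hh, hβ v (by simp)]
    · refine lin_vanish (G := G) (D := D) ((LL z).comp (LinearMap.mulLeft F h)) ?_ hq
      intro S hS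
      refine large_case z (fun b => if b = true then 1 else 0) v j S (by omega) {v} ?_ (by omega)
      intro d hd
      rw [Finset.mem_singleton.1 hd]
      exact ⟨j, fun β hβ => by simp [hβ]⟩
  · set Dem : Finset W := if G.src v then ∅ else {G.p1 v, G.p2 v} with hDem
    by_cases hN : (NN G z Dem).card ≤ D + 1
    · refine small_case hz hr Dem v hN (by omega) ?_ _ _ ?_ hg
      · by_cases hs : G.src v
        · exact Or.inr (Or.inl hs)
        · exact Or.inr (Or.inr (by simp [hDem, hs]))
      · intro β β' hβ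
        by_cases hs : G.src v
        · simp only [gen, hs, true_or, hβ v (by simp)]
        · exact gen_congr _ fun w hw => hβ w (by simpa [tch, hDem, hs] using hw)
    · refine lin_vanish (G := G) (D := D)
        ((LL z).comp (LinearMap.mulLeft F (gen F G (Sum.inr (v, i, i', j))))) ?_ hq
      intro S hS
      have h2 := Finset.card_insert_le (Sum.inr (v, i, i', j)) S
      have := large_case (F := F) (G := G) z (fun _ => 1) v i (insert (Sum.inr (v, i, i', j)) S)
        (by omega) Dem ?_ (by omega)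
      · simpa [gen_mul_termF] using this
      · intro d hd
        by_cases hs : G.src v
        · simp [hDem, hs] at hd
        · simp only [hDem, hs, if_false, Finset.mem_insert, Finset.mem_singleton] at hd
          rcases hd with rfl | rfl
          · refine ⟨i, fun β hβ => ?_⟩
            simp only [termF]
            rw [Finset.prod_eq_zero (Finset.mem_insert_self _ _) (by simp [gen, hs, hβ]), mul_zero]
          · refine ⟨i', fun β hβ => ?_⟩
            simp only [termF]
            rw [Finset.prod_eq_zero (Finset.mem_insert_self _ _) (by simp [gen, hs, hβ]), mul_zero]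

lemma axioms_ok {K : ℕ} (ht : 3 < t) (hs : ∀ A, Peb G K A → G.sink ∉ A)
    {p : MvPolynomial (Var W t) F} (hp : p ∈ PP F G t) (z : W → Option (Fin t → Bool))
    (hz : Legal G K z) : LL z (hat G p) = 0 := by
  rcases mem_PP.1 hp with ⟨v, i, i', rfl⟩ | ⟨v, i, i', j, rfl⟩ | ⟨v, i, i', rfl⟩ | ⟨j, rfl⟩
  · have : hat G (prem F G v i i' * (1 - X (ev v i i' 0))) = 0 := by
      funext β
      by_cases h : G.src v
      · simp [hat, prem, h, gen, ev]
      · cases h1 : β (G.p1 v) i <;> cases h2 : β (G.p2 v) i' <;>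
          simp [hat, prem, h, gen, ev, h1, h2]
    rw [this, map_zero]
  · have : hat G (X (ev v i i' j) * X (yv v j) * (1 - X (ev v i i' (j + 1))) :
        MvPolynomial (Var W t) F) = 0 := by
      funext β
      have e1 : min (j : ℕ) t = j := by have := j.2; omega
      have e2 : min ((j : ℕ) + 1) t = j + 1 := by have := j.2; omega
      simp only [hat, map_mul, map_sub, map_one, eval_X, gen, ev, e1, e2, Pi.zero_apply]
      split_ifs with h1 h2 h3 h4 <;> try simp
      refine h4 ⟨h1.1, fun l hl => ?_⟩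
      rcases Nat.lt_succ_iff_lt_or_eq.1 hl with h | h
      · exact h1.2 l h
      · rw [Fin.ext h]; simpa using h2
    rw [this, map_zero]
  · refine LL_zero_of_ff z v (hz.1 v) _ fun β hβ => ?_
    simp only [hat, eval_X, gen, ev, min_self]
    rw [if_neg]
    rintro ⟨_, h⟩
    exact hβ (funext fun l => h l l.2)
  · have hsk : z G.sink = none := by
      by_contra h
      exact hs _ hz.2 (mem_dom.2 h)
    have := vanish_unless_ext (F := F) (G := G) z (fun b => if b = true then 1 else 0) G.sink j ∅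
      (by simp; omega) hsk ⟨j, fun β hβ => by simp [hβ]⟩ (by simp)
    rw [← this]
    congr 1
    funext β
    simp only [hat, map_sub, map_one, eval_X, gen, termF, Finset.prod_empty, mul_one]
    split_ifs <;> simp

/-- the degree lower bound -/
theorem no_low_degree {K D : ℕ} (ht : 2 * D + 3 < t) (hK : 4 * D + 5 ≤ K)
    (hs : ∀ A, Peb G K A → G.sink ∉ A) : ¬ HasPCRefutation (PP F G t) D := by
  rintro ⟨l, L, h1, hL⟩
  have key : ∀ i ≤ l, ∀ z : W → Option (Fin t → Bool), Legal G K z → LL z (hat G (L i)) = 0 := by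
    intro i
    induction i using Nat.strong_induction_on with
    | _ i ih =>
      intro hi z hz
      rcases (hL i hi).2 with hj | ⟨x, e⟩ | ⟨j, hj, k, hk, u, v, e⟩ | ⟨j, hj, x, e⟩
      · exact axioms_ok (by omega) hs hj z hz
      · have : hat G (L i) = 0 := by
          funext β
          simp [hat, e, pow_two, gen_sq]
        rw [this, map_zero]
      · have : hat G (L i) = u • hat G (L j) + v • hat G (L k) := by
          funext β
          simp [hat, e]
        rw [this, map_add, map_smul, map_smul, ih j hj (by omega) z hz, ih k hk (by omega) z hz]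
        simp
      · have : hat G (L i) = gen F G x * hat G (L j) := by
          funext β
          simp [hat, e]
        rw [this]
        exact closure_step ht hK x (hL j (by omega)).1 (ih j hj (by omega)) z hz
  have h2 := key l le_rfl (fun _ => none) ⟨by simp, by
    have : dom (fun _ : W => (none : Option (Fin t → Bool))) = ∅ := by simp [dom]
    rw [this]; exact peb_empty K⟩
  have h3 : hat G (L l) = 1 := by
    funext β
    simp [hat, h1]
  rw [h3, LL_none_one (by omega)] at h2
  exact one_ne_zero h2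

end Pool.Agent.P.MP_a6f615_lc
end

-- part Pool.Agent.P.MP_a6f615_lc.Main
section

namespace Pool.Agent.P.MP_a6f615_lc

open MvPolynomial

lemma HasPCRefutation.mono {V F : Type} [Field F] {P : Set (MvPolynomial V F)} {D D' : ℕ}
    (h : HasPCRefutation P D) (hD : D ≤ D') : HasPCRefutation P D' := by
  obtain ⟨l, L, h1, hL⟩ := h
  exact ⟨l, L, h1, fun i hi => ⟨(hL i hi).1.trans hD, (hL i hi).2⟩⟩

theorem main (s : ℕ) :
    ∃ (V : Type) (_ : Fintype V) (Φ : Finset (Finset (V × Bool))), (∀ c ∈ Φ, c.card ≤ 3) ∧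
      ∀ (F : Type) [Field F] (P : Set (MvPolynomial V F)), P = clausePoly F '' Φ →
        (∀ a : V → F, (∀ x, a x = 0 ∨ a x = 1) → ∃ p ∈ P, MvPolynomial.eval a p ≠ 0) ∧
        (∃ (ℓ : ℕ) (M : ℕ → Finset (MvPolynomial V F)), M 0 = ∅ ∧ 1 ∈ M ℓ ∧
          (∀ i < ℓ, SemStep P (M i) (M (i + 1)) ∧ SynStep P (M i) (M (i + 1))) ∧
          ∀ i ≤ ℓ, monSpace (M i) ≤ 6 * s + 105) ∧
        ∃ D : ℕ, IsLeast {D' | HasPCRefutation P D'} D ∧
          ∀ p ∈ P, p.totalDegree + s ^ 2 ≤ D := by
  classical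
  set p := 2 * s + 3 with hp
  set μ := 2 * s + 4 with hμ
  set k := (p + 1) * (p + 1) + 2 with hk
  set N := k ^ (μ + 1) with hN
  set t := 2 * (s ^ 2 + 2) + 4 with ht
  have hk0 : 0 < k := by omega
  set G := FG N p (loF k (μ + 1)) (loF_lt hk0 (μ + 1)) with hG
  refine ⟨Var (Vx N p) t, inferInstance, Finset.univ.filter (IsClause G), ?_, ?_⟩
  · intro c hc
    exact card_clause G (Finset.mem_filter.1 hc).2
  intro F _ P hP
  have hPP : P = PP F G t := by
    rw [hP, PP]
    congr 1
    ext c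
    simp
  subst hPP
  obtain ⟨M, hM, h1⟩ := small_space (F := F) (N := N) (p := p) (t := t)
    (hlo := loF_lt hk0 (μ + 1)) (s := 6 * s + 105) (by omega) (card_Opn hk0 (μ + 1) N) (by omega)
  have hex := hasPC_of_reach hM h1
  have hne : (PP F G t).Nonempty :=
    ⟨_, mem_PP.2 (Or.inr (Or.inr (Or.inr ⟨⟨0, by omega⟩, rfl⟩)))⟩
  refine ⟨fun a ha => ?_, ?_, Nat.find hex, ⟨Nat.find_spec hex, fun D hD => Nat.find_min' hex hD⟩,
    fun q hq => ?_⟩
  · obtain ⟨D, hD⟩ := hex
    exact unsat_of_hasPC hD a ha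
  · obtain ⟨l, L, e0, el, hL⟩ := exists_seq hM
    refine ⟨l, L, e0, by rw [el]; exact h1,
      fun i hi => ⟨semStep_of_synStep hne (hL i hi).1, (hL i hi).1⟩, fun i hi => ?_⟩
    refine (monSpace_le_cost _).trans ?_
    rcases Nat.eq_zero_or_pos i with h | h
    · rw [h, e0]; simp [cost]
    · have := (hL (i - 1) (by omega)).2
      rwa [Nat.sub_add_cancel h] at this
  · have hd : q.totalDegree ≤ 3 := by
      obtain ⟨c, hc, rfl⟩ := hq
      exact (totalDegree_clausePoly c).trans (card_clause G hc)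
    by_contra hlt
    refine no_low_degree (F := F) (G := G) (t := t) (K := 4 * (s ^ 2 + 2) + 5) (D := s ^ 2 + 2)
      (by omega) le_rfl ?_ ((Nat.find_spec hex).mono (by omega))
    intro A hA
    refine sink_not_peb k μ _ le_rfl rfl (fun ν hν a i ha hi => loF_eq hν a i ha hi) ?_ hA
    rw [hμ, hp]
    nlinarith

end Pool.Agent.P.MP_a6f615_lc
end
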